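import Mathlib
import Pool.Agent.Run7.h402.PT.B7

/-!
# The exceptional character at one scale, with the uniqueness of its zero
-/

set_option autoImplicit false

open Finset

namespace Run7.h402.PW

open DirichletCharacter Pool.Agent.H378R2 Pool.Agent.H378R2.M1
open Pool.Agent.N728.SP (PP PL)
open Pool.Agent.N475.SP (dom PP_eq)
open Pool.Agent.Erdos456 (mul_char_apply)
open Run7.h402.PT

noncomputable section

/-- a real primitive character which is exceptional at the scale `l` -/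
def Exc (d1 κ l : ℝ) {q : ℕ} [NeZero q] (χ : DirichletCharacter ℂ q) : Prop :=
  1 < q ∧ Real.log q ≤ l ∧ χ.IsPrimitive ∧ χ ^ 2 = 1 ∧ ‖LFunction χ ((1 + d1 / l ^ 9 : ℝ) : ℂ)‖ < κ / l ^ 7

/-- the structure at one scale -/
theorem exc_given : ∃ d1 κ c : ℝ, 0 < d1 ∧ d1 ≤ 1 / 2 ∧ 0 < κ ∧ 0 < c ∧ c ≤ 1 / 4 ∧ ∃ l0 : ℝ, ∀ l : ℝ, l0 ≤ l →
    ((¬ ∃ (f : ℕ) (_ : NeZero f) (χ : DirichletCharacter ℂ f), Exc d1 κ l χ) →
      ∀ (f : ℕ) [NeZero f], 1 < f → Real.log f ≤ l → ∀ ψ : DirichletCharacter ℂ f, ψ.IsPrimitive → Small l (lc ψ)) ∧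
    ∀ (q : ℕ) [NeZero q] (χ : DirichletCharacter ℂ q), Exc d1 κ l χ →
      (∃ β : ℝ, 1 - c / l ^ 3 ≤ β ∧ β < 1 ∧ 1 / 2 ≤ β ∧ LFunction χ (β : ℂ) = 0 ∧ Small l (ax χ β) ∧
        ∀ β' : ℝ, 1 - c / l ^ 3 ≤ β' → β' < 1 → LFunction χ (β' : ℂ) = 0 → β' = β) ∧
      ∀ (f : ℕ) [NeZero f], 1 < f → Real.log f ≤ l → ∀ ψ : DirichletCharacter ℂ f, ψ.IsPrimitive →
        (⟨f, ψ⟩ : Sigma fun n : ℕ => DirichletCharacter ℂ n) ≠ ⟨q, χ⟩ → Small l (lc ψ) := by
  obtain ⟨d1, d2, κ, hd1, hd1', hd2, hd2', hκ, hA, hB⟩ := nzr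
  obtain ⟨c, c', hc, hc4, hc'0, hc'c, hdich⟩ := dich
  obtain ⟨l1, h1⟩ := tent1 d2 hd2 hd2'
  obtain ⟨l2, h2⟩ := exc_tent c hc
  obtain ⟨l3, h3⟩ := sharp_gen
  refine ⟨d1, κ, c, hd1, hd1', hκ, hc, hc4, max (max (max l1 l2) (max l3 4)) (max (d1 / c' + 1) (κ / c' + 1)), fun l hl => ?_⟩
  have hl1 : l1 ≤ l := (((le_max_left _ _).trans (le_max_left _ _)).trans (le_max_left _ _)).trans hl
  have hl2 : l2 ≤ l := (((le_max_right _ _).trans (le_max_left _ _)).trans (le_max_left _ _)).trans hl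
  have hl3 : l3 ≤ l := (((le_max_left _ _).trans (le_max_right _ _)).trans (le_max_left _ _)).trans hl
  have hl4 : 4 ≤ l := (((le_max_right _ _).trans (le_max_right _ _)).trans (le_max_left _ _)).trans hl
  have hl5 : d1 / c' + 1 ≤ l := ((le_max_left _ _).trans (le_max_right _ _)).trans hl
  have hl6 : κ / c' + 1 ≤ l := ((le_max_right _ _).trans (le_max_right _ _)).trans hl
  have hlpos : 0 < l := by linarith
  have hlone : 1 ≤ l := by linarith
  have hE : Real.exp (-(15 * l / 16)) ≤ Real.exp (-(7 * l / 8)) := by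
    apply Real.exp_le_exp.2
    linarith
  -- from a region to sharp sums
  have hsmall : ∀ (f : ℕ) [NeZero f] (ψ : DirichletCharacter ℂ f), ψ ≠ 1 →
      (∀ s : ℂ, |s.re - 1| ≤ d2 / l ^ 18 → Real.log (2 * |s.im| + 3) ≤ l →
        ψ.LFunction s ≠ 0 ∧ ‖deriv ψ.LFunction s / ψ.LFunction s‖ ≤ l ^ 18 / d2) → Small l (lc ψ) := by
    intro f _ ψ hψ hreg
    intro X hX1 hX2 y hy
    refine h3 l hl3 (lc ψ) (fun n hn => (lc_norm ψ n hn).trans (by linarith)) ?_ X hX1 hX2 y hy
    intro z hz1 hz2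
    have e : PP (lc ψ) z = psiPhi ψ z := PP_eq ψ z
    rw [e]
    refine (h1 l hl1 f ψ hψ hreg z hz1 hz2).trans ?_
    have hz0 : 0 < z := (Real.exp_pos _).trans_le hz1
    gcongr
  constructor
  · intro hex f hf0 hf1 hfl ψ hψ
    refine hsmall f ψ (primitive_ne_one hf1 hψ) ?_
    intro s hs1 hs2
    refine hA l hl4 f ψ (primitive_ne_one hf1 hψ) hfl ?_ s hs1 hs2
    intro hsq
    by_contra hcon
    push Not at hcon
    exact hex ⟨f, hf0, ψ, hf1, hfl, hψ, hsq, hcon⟩
  · intro q hq0 χ hexc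
    obtain ⟨hq1, hql, hχp, hχ2, hχs⟩ := hexc
    have hχ1 := primitive_ne_one hq1 hχp
    rcases hdich l hl4 q χ hχ2 hχ1 hql with hI | ⟨β, hβ1, hβ2, hβ0, hF⟩
    · exfalso
      have g1 : ‖((1 + d1 / l ^ 9 : ℝ) : ℂ) - 1‖ ≤ c' / l ^ 6 := by
        have e : ((1 + d1 / l ^ 9 : ℝ) : ℂ) - 1 = ((d1 / l ^ 9 : ℝ) : ℂ) := by push_cast; ring
        rw [e, Complex.norm_real, Real.norm_of_nonneg (by positivity)]
        rw [div_le_div_iff₀ (by positivity) (by positivity)]
        have g2 : d1 ≤ c' * l := by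
          have : d1 / c' ≤ l := by linarith
          rw [div_le_iff₀ hc'0] at this
          linarith
        have g3 : l ≤ l ^ 3 := le_self_pow₀ hlone (by norm_num)
        calc d1 * l ^ 6 ≤ (c' * l ^ 3) * l ^ 6 := by
              gcongr
              exact g2.trans (by gcongr)
          _ = c' * l ^ 9 := by ring
      have g4 := hI _ g1
      have g5 : κ / l ^ 7 ≤ c' / l ^ 4 := by
        rw [div_le_div_iff₀ (by positivity) (by positivity)]
        have g2 : κ ≤ c' * l := by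
          have : κ / c' ≤ l := by linarith
          rw [div_le_iff₀ hc'0] at this
          linarith
        have g3 : l ≤ l ^ 3 := le_self_pow₀ hlone (by norm_num)
        calc κ * l ^ 4 ≤ (c' * l ^ 3) * l ^ 4 := by
              gcongr
              exact g2.trans (by gcongr)
          _ = c' * l ^ 7 := by ring
      linarith
    · have hβh : 1 / 2 ≤ β := by
        have : c / l ^ 3 ≤ 1 / 4 := by
          have g1 : 1 ≤ l ^ 3 := one_le_pow₀ hlone
          exact (div_le_self hc.le g1).trans hc4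
        linarith
      refine ⟨⟨β, hβ1, hβ2, hβh, hβ0, ?_, ?_⟩, ?_⟩
      · intro X hX1 hX2 y hy
        refine h3 l hl3 (ax χ β) (fun n hn => ax_norm χ β hβ2 n hn) ?_ X hX1 hX2 y hy
        intro z hz1 hz2
        refine (h2 l hl2 q χ hχ1 hql β hβ1 hβ2 hβ0 hF z hz1 hz2).trans ?_
        have hz0 : 0 < z := (Real.exp_pos _).trans_le hz1
        gcongr
      · intro β' hb1 hb2 hb0
        by_contra hne
        have g1 : ‖(β' : ℂ) - 1‖ ≤ c / l ^ 3 := by
          have e : (β' : ℂ) - 1 = ((β' - 1 : ℝ) : ℂ) := by push_cast; ring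
          rw [e, Complex.norm_real, Real.norm_eq_abs, abs_le]
          constructor
          · linarith
          · have : 0 ≤ c / l ^ 3 := by positivity
            linarith
        have g2 := (hF _ g1).1
        have hne' : (β' : ℂ) ≠ (β : ℂ) := by exact_mod_cast hne
        rw [dslope_of_ne _ hne', slope_def_field, hb0, hβ0, sub_zero, zero_div, norm_zero] at g2
        linarith
      · intro f hf0 hf1 hfl ψ hψ hne
        refine hsmall f ψ (primitive_ne_one hf1 hψ) ?_
        intro s hs1 hs2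
        refine hA l hl4 f ψ (primitive_ne_one hf1 hψ) hfl ?_ s hs1 hs2
        intro hsq
        have hN : NeZero (q * f) := ⟨mul_ne_zero (NeZero.ne q) (NeZero.ne f)⟩
        have hlogN : Real.log ((q * f : ℕ) : ℝ) ≤ 2 * l := by
          push_cast
          rw [Real.log_mul (by exact_mod_cast NeZero.ne q) (by exact_mod_cast NeZero.ne f)]
          linarith
        refine hB l hl4 q f (q * f) hlogN χ ψ
          (changeLevel (q.dvd_mul_right f) χ * changeLevel (f.dvd_mul_left q) ψ) hχ2 hsq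
          (mul_char_apply χ ψ) ?_ hχs
        intro h3
        have e2 : changeLevel (f.dvd_mul_left q) ψ * changeLevel (f.dvd_mul_left q) ψ = 1 := by
          rw [← map_mul, ← pow_two, hsq, map_one]
        have e : changeLevel (q.dvd_mul_right f) χ = changeLevel (f.dvd_mul_left q) ψ := by
          rw [← h3] at e2
          exact (mul_right_cancel e2).symm
        have e4 := congrArg conductor e
        rw [conductor_changeLevel, conductor_changeLevel, (isPrimitive_def χ).mp hχp,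
          (isPrimitive_def ψ).mp hψ] at e4
        subst e4
        have e5 : χ = ψ := changeLevel_injective _ e
        exact hne (by rw [e5])

end

end Run7.h402.PW
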