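import Mathlib
import Pool.Agent.Run7.h402.PW.W2

/-!
# There are arbitrarily large good scales
-/

set_option autoImplicit false

open Finset

namespace Run7.h402.PW

open DirichletCharacter Pool.Agent.H378R2 Pool.Agent.H378R2.M1
open Pool.Agent.N475.SP (dom PP_eq)
open Run7.h402.PT
open Pool.Agent.H807R2.Dav
open Pool.Agent.H373R2.T7 (pz Vz lamz mem_pz Vz_pos Vz_inv_le rough_ap lamz_nonneg)

noncomputable section

/-- a scale at which the sieve model describes the primes -/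
def GoodScale (l : ℝ) : Prop := ∀ N : ℕ, Real.exp (l ^ 23) ≤ N → (N : ℝ) ≤ Real.exp (l ^ 41) → ∀ α : ℝ,
  ‖∑ n ∈ Icc 1 N, ((Fp n - lamz (zl l) n : ℝ) : ℂ) * ee ((n : ℝ) * α)‖ ≤ N * Real.exp (-(l / 1500))

theorem good_of_close : ∃ l0 : ℝ, ∀ l : ℝ, l0 ≤ l → ∀ (Λ κ β : ℝ) (q1 : ℕ) [NeZero q1] (χ : DirichletCharacter ℂ q1),
    l / 128 ≤ Λ → Λ ≤ l / 8 → 0 ≤ κ → κ ≤ 1 → β < 1 → 1 / 2 ≤ β → χ ^ 2 = 1 → Real.log q1 ≤ Λ / 16 → Close l Λ κ χ β →
    (κ = 0 ∨ 2 ≤ (1 - β) * l ^ 22) → GoodScale l := by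
  obtain ⟨l1, h1⟩ := sup_of_close
  obtain ⟨l2, h2⟩ := Fp_sup
  obtain ⟨C, hC1, h3⟩ := Vz_scale
  obtain ⟨l3, h4⟩ := dom (2 + 2 * C) (1 / 2) 2 (by norm_num)
  refine ⟨max (max l1 l2) (max l3 100000000), fun l hl Λ κ β q1 _ χ hΛs hΛl hκ0 hκ1 hβ1 hβh hχ hq1Λ hclose hcase => ?_⟩
  have hl1 : l1 ≤ l := ((le_max_left _ _).trans (le_max_left _ _)).trans hl
  have hl2 : l2 ≤ l := ((le_max_right _ _).trans (le_max_left _ _)).trans hl
  have hl3 : l3 ≤ l := ((le_max_left _ _).trans (le_max_right _ _)).trans hl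
  have hl8 : 100000000 ≤ l := ((le_max_right _ _).trans (le_max_right _ _)).trans hl
  have hl0 : 0 < l := by linarith
  have hlone : 1 ≤ l := by linarith
  have hsl : √l ≤ l / 128 := by
    rw [Real.sqrt_le_left (by positivity)]
    nlinarith
  intro N hN1 hN2 α
  have hN0 : (0 : ℝ) < N := (Real.exp_pos _).trans_le hN1
  have hNn : 1 ≤ N := by exact_mod_cast (show (0 : ℝ) < N from hN0)
  have g1 := h1 l hl1 Λ κ β q1 χ (hsl.trans hΛs) hΛl hκ0 hκ1 hβ1 hβh hχ hq1Λ hclose N hN1 hN2 α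
  have g2 := h2 l hl2 N hN1 hN2 α
  have hlog : l ^ 23 ≤ Real.log N := by
    rw [Real.le_log_iff_exp_le hN0]; exact hN1
  have g3 : ‖∑ n ∈ Icc 1 N, ((Gr l κ χ β n - lamz (zl l) n : ℝ) : ℂ) * ee ((n : ℝ) * α)‖ ≤ N * (2 * C * l ^ 2 * Real.exp (-l)) := by
    rcases hcase with h0 | h0
    · have : ∑ n ∈ Icc 1 N, ((Gr l κ χ β n - lamz (zl l) n : ℝ) : ℂ) * ee ((n : ℝ) * α) = 0 := by
        apply sum_eq_zero
        intro n _
        unfold Gr
        rw [h0]
        push_cast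
        ring
      rw [this, norm_zero]
      positivity
    · have g4 : ∀ n ∈ Icc 1 N, ‖((Gr l κ χ β n - lamz (zl l) n : ℝ) : ℂ) * ee ((n : ℝ) * α)‖ ≤ C * l ^ 2 * (n : ℝ) ^ (β - 1) := by
        intro n hn
        rw [mem_Icc] at hn
        rw [norm_mul, norm_ee, mul_one, Complex.norm_real, Real.norm_eq_abs]
        have e : Gr l κ χ β n - lamz (zl l) n = -(lamz (zl l) n * (κ * (χ (n : ZMod q1)).re * (n : ℝ) ^ (β - 1))) := by
          unfold Gr; ring
        rw [e, abs_neg, abs_mul, abs_of_nonneg (lamz_nonneg _ _), abs_mul, abs_mul, abs_of_nonneg hκ0]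
        have h5 : lamz (zl l) n ≤ C * l ^ 2 := by
          refine le_trans ?_ (h3 l (by linarith))
          unfold lamz
          have hV := Vz_pos (zl l)
          split_ifs
          · exact le_rfl
          · positivity
        have h6 := (real_char χ hχ (n : ZMod q1)).2
        have h7 : 0 ≤ (n : ℝ) ^ (β - 1) := by positivity
        rw [abs_of_nonneg h7]
        calc lamz (zl l) n * (κ * |(χ (n : ZMod q1)).re| * (n : ℝ) ^ (β - 1)) ≤ (C * l ^ 2) * (1 * 1 * (n : ℝ) ^ (β - 1)) := by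
              gcongr
          _ = _ := by ring
      refine (norm_sum_le _ _).trans ((sum_le_sum g4).trans ?_)
      rw [← mul_sum]
      have h5 := beta_sum β hβ1 N hNn l (by
        calc 2 * l ≤ ((1 - β) * l ^ 22) * l := by gcongr
          _ = (1 - β) * l ^ 23 := by ring
          _ ≤ (1 - β) * Real.log N := by
              apply mul_le_mul_of_nonneg_left hlog
              linarith)
      have h6 : √(N : ℝ) ≤ N * Real.exp (-l) := by
        rw [Real.sqrt_le_left (by positivity), mul_pow, ← Real.exp_nat_mul]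
        have h7 : Real.exp (2 * l) ≤ N := by
          refine le_trans ?_ hN1
          apply Real.exp_le_exp.2
          have h8 : l ^ 2 ≤ l ^ 23 := pow_le_pow_right₀ hlone (by norm_num)
          nlinarith
        calc (N : ℝ) = N * (Real.exp (2 * l) * Real.exp (((2 : ℕ) : ℝ) * -l)) := by
              rw [← Real.exp_add]
              have : 2 * l + ((2 : ℕ) : ℝ) * -l = 0 := by push_cast; ring
              rw [this, Real.exp_zero, mul_one]
          _ ≤ N * (N * Real.exp (((2 : ℕ) : ℝ) * -l)) := by gcongr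
          _ = _ := by ring
      calc C * l ^ 2 * ∑ n ∈ Icc 1 N, (n : ℝ) ^ (β - 1) ≤ C * l ^ 2 * (N * Real.exp (-l) + N * Real.exp (-l)) := by
            gcongr
            linarith
        _ = _ := by ring
  have e : ∑ n ∈ Icc 1 N, ((Fp n - lamz (zl l) n : ℝ) : ℂ) * ee ((n : ℝ) * α) =
      ∑ n ∈ Icc 1 N, ((ArithmeticFunction.vonMangoldt n - Gr l κ χ β n : ℝ) : ℂ) * ee ((n : ℝ) * α) -
      ∑ n ∈ Icc 1 N, ((ArithmeticFunction.vonMangoldt n - Fp n : ℝ) : ℂ) * ee ((n : ℝ) * α) +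
      ∑ n ∈ Icc 1 N, ((Gr l κ χ β n - lamz (zl l) n : ℝ) : ℂ) * ee ((n : ℝ) * α) := by
    rw [← sum_sub_distrib, ← sum_add_distrib]
    apply sum_congr rfl
    intro n _
    push_cast
    ring
  rw [e]
  refine (norm_add_le _ _).trans ((add_le_add ((norm_sub_le _ _).trans (add_le_add g1 g2)) g3).trans ?_)
  have hD := h4 l hl3
  have e1 : Real.exp (-(Λ / 10)) ≤ Real.exp (-(l / 1280)) := by
    apply Real.exp_le_exp.2; linarith
  have e2 : Real.exp (-l) + 2 * C * l ^ 2 * Real.exp (-l) ≤ Real.exp (-(l / 1280)) := by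
    have hp : 1 ≤ l ^ 2 := one_le_pow₀ hlone
    calc Real.exp (-l) + 2 * C * l ^ 2 * Real.exp (-l) = (1 + 2 * C * l ^ 2) * Real.exp (-l) := by ring
      _ ≤ ((2 + 2 * C) * l ^ 2) * Real.exp (-l) := by
          gcongr
          nlinarith
      _ ≤ Real.exp (1 / 2 * l) * Real.exp (-l) := by gcongr
      _ = Real.exp (-(l / 2)) := by rw [← Real.exp_add]; congr 1; ring
      _ ≤ Real.exp (-(l / 1280)) := by
          apply Real.exp_le_exp.2; linarith
  have e3 : 2 * Real.exp (-(l / 1280)) ≤ Real.exp (-(l / 1500)) := by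
    have h5 : Real.exp (-(l / 1500)) = Real.exp (l / 1280 - l / 1500) * Real.exp (-(l / 1280)) := by
      rw [← Real.exp_add]; congr 1; ring
    rw [h5]
    have h6 := Real.add_one_le_exp (l / 1280 - l / 1500)
    have h7 : 2 ≤ Real.exp (l / 1280 - l / 1500) := by linarith
    gcongr
  calc (N : ℝ) * Real.exp (-(Λ / 10)) + N * Real.exp (-l) + N * (2 * C * l ^ 2 * Real.exp (-l)) =
      N * (Real.exp (-(Λ / 10)) + (Real.exp (-l) + 2 * C * l ^ 2 * Real.exp (-l))) := by ring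
    _ ≤ N * (Real.exp (-(l / 1280)) + Real.exp (-(l / 1280))) := by gcongr
    _ = N * (2 * Real.exp (-(l / 1280))) := by ring
    _ ≤ N * Real.exp (-(l / 1500)) := by gcongr

/-- there are arbitrarily large good scales -/
theorem good_scales : ∀ L : ℝ, ∃ l : ℝ, L ≤ l ∧ GoodScale l := by
  obtain ⟨d1, κ, c, hd1, hd1', hκ, hc, hc4, l1, h1⟩ := exc_given
  obtain ⟨l2, h2⟩ := close_of
  obtain ⟨l3, h3⟩ := good_of_close
  obtain ⟨C, hC1, _, _, hlip⟩ := L_lip
  intro L'
  set K : ℝ := 2 * C / κ + 2 with hK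
  have hK2 : 2 ≤ K := by
    have : 0 ≤ 2 * C / κ := by positivity
    linarith
  set L : ℝ := max (max (max L' l1) (max l2 l3)) (max (max 128 (2 * K ^ 21)) (1 / c)) with hL
  have hL0 : L' ≤ L := ((le_max_left _ _).trans (le_max_left _ _)).trans (le_max_left _ _)
  have hL1 : l1 ≤ L := ((le_max_right _ _).trans (le_max_left _ _)).trans (le_max_left _ _)
  have hL2 : l2 ≤ L := ((le_max_left _ _).trans (le_max_right _ _)).trans (le_max_left _ _)
  have hL3 : l3 ≤ L := ((le_max_right _ _).trans (le_max_right _ _)).trans (le_max_left _ _)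
  have hL128 : 128 ≤ L := ((le_max_left _ _).trans (le_max_left _ _)).trans (le_max_right _ _)
  have hLK : 2 * K ^ 21 ≤ L := ((le_max_right _ _).trans (le_max_left _ _)).trans (le_max_right _ _)
  have hLc : 1 / c ≤ L := (le_max_right _ _).trans (le_max_right _ _)
  have hLpos : 0 < L := by linarith
  have hN1 : NeZero (1 : ℕ) := ⟨one_ne_zero⟩
  have hlog1 : Real.log ((1 : ℕ) : ℝ) = 0 := by rw [Nat.cast_one, Real.log_one]
  obtain ⟨hno, hyes⟩ := h1 L hL1
  by_cases hex : ∃ (f : ℕ) (_ : NeZero f) (χ : DirichletCharacter ℂ f), Exc d1 κ L χ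
  swap
  · refine ⟨L, hL0, ?_⟩
    have hsm := hno hex
    apply h3 L hL3 (L / 8) 0 (1 / 2) 1 (1 : DirichletCharacter ℂ 1) (by linarith) le_rfl le_rfl zero_le_one (by norm_num) le_rfl
      (one_pow 2) (by rw [hlog1]; positivity) _ (Or.inl rfl)
    apply h2 L hL2 (L / 8) 0 1 (1 : DirichletCharacter ℂ 1) (1 / 2) (by norm_num) (by linarith) (by rw [hlog1]; linarith) (Or.inl rfl)
    intro f _ hf hfl ψ hψ _
    exact hsm f hf (by linarith) ψ hψ
  obtain ⟨q, hq0, χ, hexc⟩ := hex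
  obtain ⟨⟨β, hβc, hβ1, hβh, hβ0, hax, hun⟩, hoth⟩ := hyes q χ hexc
  obtain ⟨hq1, hqL, hprim, hsq, hsmallL⟩ := hexc
  by_cases hqs : Real.log q ≤ L / 128
  swap
  · refine ⟨L, hL0, ?_⟩
    apply h3 L hL3 (L / 128) 0 (1 / 2) 1 (1 : DirichletCharacter ℂ 1) le_rfl (by linarith) le_rfl zero_le_one (by norm_num) le_rfl
      (one_pow 2) (by rw [hlog1]; positivity) _ (Or.inl rfl)
    apply h2 L hL2 (L / 128) 0 1 (1 : DirichletCharacter ℂ 1) (1 / 2) (by norm_num) (by linarith) (by rw [hlog1]; linarith) (Or.inl rfl)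
    intro f _ hf hfl ψ hψ _
    apply hoth f hf (by linarith) ψ hψ
    intro h
    obtain ⟨e1, _⟩ := Sigma.mk.inj_iff.1 h
    rw [e1] at hfl
    exact hqs hfl
  by_cases hbig : 2 ≤ (1 - β) * L ^ 22
  · refine ⟨L, hL0, ?_⟩
    apply h3 L hL3 (L / 8) 1 β q χ (by linarith) le_rfl zero_le_one le_rfl hβ1 hβh hsq (by linarith) _ (Or.inr hbig)
    apply h2 L hL2 (L / 8) 1 q χ β hβ1.le (by linarith) (by linarith) (Or.inr ⟨rfl, hq1, hprim, hsq, hax⟩)
    intro f _ hf hfl ψ hψ hne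
    rcases hne with h | h
    · norm_num at h
    · exact hoth f hf (by linarith) ψ hψ h
  push Not at hbig
  -- the new scale
  have hb0 : 0 < 1 - β := by linarith
  set l : ℝ := (1 / (1 - β)) ^ (1 / 21 : ℝ) with hl
  have hl21 : l ^ 21 = 1 / (1 - β) := by
    rw [hl, ← Real.rpow_natCast, ← Real.rpow_mul (by positivity)]
    norm_num
  have hlpos : 0 < l := by positivity
  have hlK : K * L ≤ l := by
    by_contra hcon
    push Not at hcon
    have g1 : l ^ 21 < (K * L) ^ 21 := by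
      apply pow_lt_pow_left₀ hcon hlpos.le (by norm_num)
    rw [hl21, div_lt_iff₀ hb0] at g1
    have g2 : (K * L) ^ 21 * (1 - β) ≤ 1 := by
      have g3 : 2 * ((K * L) ^ 21 * (1 - β)) ≤ L ^ 22 * (1 - β) := by
        calc 2 * ((K * L) ^ 21 * (1 - β)) = (2 * K ^ 21) * L ^ 21 * (1 - β) := by ring
          _ ≤ L * L ^ 21 * (1 - β) := by gcongr
          _ = _ := by ring
      linarith
    linarith
  have hLl : L ≤ l := by
    refine le_trans ?_ hlK
    nlinarith
  have hlone : 1 ≤ l := by linarith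
  refine ⟨l, hL0.trans hLl, ?_⟩
  obtain ⟨_, hyes'⟩ := h1 l (hL1.trans hLl)
  have hχ1 := primitive_ne_one hq1 hprim
  have hbl : 1 - β = 1 / l ^ 21 := by rw [hl21, one_div_one_div]
  have hexc' : Exc d1 κ l χ := by
    refine ⟨hq1, hqL.trans hLl, hprim, hsq, ?_⟩
    have g0 : d1 / l ^ 9 ≤ 1 / 2 := by
      have : (1 : ℝ) ≤ l ^ 9 := one_le_pow₀ hlone
      exact (div_le_self hd1.le this).trans hd1'
    have g00 : 1 / l ^ 21 ≤ 1 / (2 * L) := by
      apply one_div_le_one_div_of_le (by positivity)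
      have h5 : l ^ 2 ≤ l ^ 21 := pow_le_pow_right₀ hlone (by norm_num)
      nlinarith
    have g1 := hlip L (by linarith) q χ hχ1 hqL ((1 + d1 / l ^ 9 : ℝ) : ℂ) ((β : ℝ) : ℂ) (by
        rw [Complex.ofReal_re]
        have : 0 < d1 / l ^ 9 := by positivity
        have : 0 < 1 / (2 * L) := by positivity
        linarith) (by rw [Complex.ofReal_re]; linarith) (by
        rw [Complex.ofReal_re]
        linarith) (by rw [Complex.ofReal_re]; linarith) 0 (by rw [Complex.ofReal_im, abs_zero]) (by rw [Complex.ofReal_im, abs_zero]) (by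
        rw [zero_add]
        have h5 : Real.log 3 ≤ 3 := (Real.log_le_sub_one_of_pos (by norm_num)).trans (by norm_num)
        linarith)
    rw [hβ0, sub_zero] at g1
    refine lt_of_le_of_lt g1 ?_
    have e : ‖((1 + d1 / l ^ 9 : ℝ) : ℂ) - ((β : ℝ) : ℂ)‖ = d1 / l ^ 9 + 1 / l ^ 21 := by
      rw [← Complex.ofReal_sub, Complex.norm_real, Real.norm_eq_abs, ← hbl, abs_of_nonneg]
      · ring
      · have : 0 < d1 / l ^ 9 := by positivity
        linarith
    rw [e]
    have g2 : d1 / l ^ 9 + 1 / l ^ 21 ≤ 2 / l ^ 9 := by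
      have h5 : 1 / l ^ 21 ≤ 1 / l ^ 9 := by
        apply one_div_le_one_div_of_le (by positivity)
        exact pow_le_pow_right₀ hlone (by norm_num)
      have h6 : d1 / l ^ 9 ≤ 1 / l ^ 9 := by gcongr; linarith
      calc d1 / l ^ 9 + 1 / l ^ 21 ≤ 1 / l ^ 9 + 1 / l ^ 9 := by linarith
        _ = 2 / l ^ 9 := by ring
    calc C * L ^ 2 * (d1 / l ^ 9 + 1 / l ^ 21) ≤ C * L ^ 2 * (2 / l ^ 9) := by gcongr
      _ < κ / l ^ 7 := by
          rw [← mul_div_assoc, div_lt_div_iff₀ (by positivity) (by positivity)]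
          have h5 : (K * L) ^ 2 ≤ l ^ 2 := by gcongr
          have h6 : 2 * C < κ * K ^ 2 := by
            have h7 : κ * K = 2 * C + 2 * κ := by
              rw [hK, mul_add, mul_div_cancel₀ _ hκ.ne']; ring
            have h8 : κ * K ≤ κ * K ^ 2 := by
              apply mul_le_mul_of_nonneg_left _ hκ.le
              nlinarith
            linarith
          have h9 : 2 * C * L ^ 2 < κ * l ^ 2 := by
            calc 2 * C * L ^ 2 < (κ * K ^ 2) * L ^ 2 := by gcongr
              _ = κ * (K * L) ^ 2 := by ring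
              _ ≤ κ * l ^ 2 := by gcongr
          calc C * L ^ 2 * 2 * l ^ 7 = (2 * C * L ^ 2) * l ^ 7 := by ring
            _ < (κ * l ^ 2) * l ^ 7 := by gcongr
            _ = κ * l ^ 9 := by ring
  obtain ⟨⟨β', hβ'c, hβ'1, hβ'h, hβ'0, hax', hun'⟩, hoth'⟩ := hyes' q χ hexc'
  have hββ : β = β' := by
    apply hun' β _ hβ1 hβ0
    have h5 : 1 / l ^ 21 ≤ c / l ^ 3 := by
      rw [div_le_div_iff₀ (by positivity) (by positivity), one_mul]
      have h6 : 1 ≤ c * l := by
        rw [div_le_iff₀ hc] at hLc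
        nlinarith
      calc l ^ 3 = 1 * l ^ 3 := (one_mul _).symm
        _ ≤ (c * l) * l ^ 3 := by gcongr
        _ = c * l ^ 4 := by ring
        _ ≤ c * l ^ 21 := mul_le_mul_of_nonneg_left (pow_le_pow_right₀ hlone (by norm_num)) hc.le
    linarith
  subst hββ
  apply h3 l (hL3.trans hLl) (l / 8) 1 β q χ (by linarith) le_rfl zero_le_one le_rfl hβ1 hβh hsq (by linarith) _ (Or.inr _)
  · apply h2 l (hL2.trans hLl) (l / 8) 1 q χ β hβ1.le (by linarith) (by linarith) (Or.inr ⟨rfl, hq1, hprim, hsq, hax'⟩)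
    intro f _ hf hfl ψ hψ hne
    rcases hne with h | h
    · norm_num at h
    · exact hoth' f hf (by linarith) ψ hψ h
  · rw [hbl]
    have : 1 / l ^ 21 * l ^ 22 = l := by
      field_simp
    rw [this]
    linarith

end

end Run7.h402.PW
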