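import Mathlib
import Pool.Agent.Run7.h402.PW.W3
import Pool.Agent.Run7.h402.PT.C4

/-!
# Averages over all tuples at good scales, and the asymptotic formula for the model
-/

set_option autoImplicit false

open Finset

namespace Run7.h402.PW

open Run7.h402.PT
open Pool.Agent.H807R2.Dav
open Pool.Agent.H373R2.T7
open Pool.Agent.N475.SP (dom)

noncomputable section

/-- growth of the trivial bounds -/
theorem grow2 (D ε : ℝ) (hD : 1 ≤ D) (hε : 0 < ε) : ∃ l0 : ℝ, ∀ l : ℝ, l0 ≤ l → ∀ k : ℕ, (k : ℝ) ≤ l ^ (24 / 25 : ℝ) →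
    (D * l ^ 50) ^ k ≤ Real.exp (ε * l) ∧ (k : ℝ) ≤ l := by
  have h1 : ∀ᶠ l : ℝ in Filter.atTop, 50 * Real.log l ≤ ε / 2 * l ^ (1 / 25 : ℝ) := by
    have h := (isLittleO_log_rpow_atTop (show (0 : ℝ) < 1 / 25 by norm_num)).bound (show 0 < ε / 100 by positivity)
    filter_upwards [h, Filter.eventually_ge_atTop 1] with l hl hl1
    rw [Real.norm_of_nonneg (Real.log_nonneg hl1), Real.norm_of_nonneg (by positivity)] at hl
    linarith
  have h2 : ∀ᶠ l : ℝ in Filter.atTop, Real.log D ≤ ε / 2 * l ^ (1 / 25 : ℝ) := by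
    have h := (tendsto_rpow_atTop (show (0 : ℝ) < 1 / 25 by norm_num)).eventually_ge_atTop (Real.log D / (ε / 2))
    filter_upwards [h] with l hl
    rw [div_le_iff₀ (by positivity)] at hl
    linarith
  obtain ⟨l0, h0⟩ := Filter.eventually_atTop.1 (h1.and (h2.and (Filter.eventually_ge_atTop (1 : ℝ))))
  refine ⟨l0, fun l hl k hk => ?_⟩
  obtain ⟨g1, g2, g4⟩ := h0 l hl
  have hl0 : 0 < l := by linarith
  have hs : l ^ (24 / 25 : ℝ) * l ^ (1 / 25 : ℝ) = l := by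
    rw [← Real.rpow_add hl0]
    norm_num
  have hp : (1 : ℝ) ≤ l ^ (1 / 25 : ℝ) := Real.one_le_rpow g4 (by norm_num)
  have hq : (0 : ℝ) < l ^ (24 / 25 : ℝ) := by positivity
  refine ⟨?_, ?_⟩
  · have hDl : 1 ≤ D * l ^ 50 := by
      have : 1 ≤ l ^ 50 := one_le_pow₀ g4
      nlinarith
    have e : (D * l ^ 50) ^ k = Real.exp (k * Real.log (D * l ^ 50)) := by
      rw [Real.exp_nat_mul, Real.exp_log (by linarith)]
    rw [e]
    apply Real.exp_le_exp.2
    have hlog : Real.log (D * l ^ 50) = Real.log D + 50 * Real.log l := by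
      rw [Real.log_mul (by linarith) (by positivity), Real.log_pow]
      push_cast
      ring
    have h5 : 0 ≤ Real.log (D * l ^ 50) := Real.log_nonneg hDl
    calc (k : ℝ) * Real.log (D * l ^ 50) ≤ l ^ (24 / 25 : ℝ) * Real.log (D * l ^ 50) := mul_le_mul_of_nonneg_right hk h5
      _ ≤ l ^ (24 / 25 : ℝ) * (ε * l ^ (1 / 25 : ℝ)) := by
          apply mul_le_mul_of_nonneg_left _ hq.le
          rw [hlog]
          linarith
      _ = ε * l := by rw [mul_left_comm, hs]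
  · rw [← hs]
    refine hk.trans ?_
    exact le_mul_of_one_le_right hq.le hp

/-- the partial products of the singular series -/
def Sz {K : ℕ} (a : Fin K → ℕ) (z : ℕ) : ℝ := ∏ p ∈ pz z, ((1 - (nup a p : ℝ) / p) / (1 - 1 / (p : ℝ)) ^ K)

theorem Sz_eq {K : ℕ} (a : Fin K → ℕ) (z : ℕ) : Sz a z = (Vz z)⁻¹ ^ K * ∏ p ∈ pz z, (1 - (nup a p : ℝ) / p) := by
  unfold Sz Vz
  rw [prod_div_distrib, prod_pow, div_eq_mul_inv, mul_comm, inv_pow]

/-- the correlations of the sieve model -/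
theorem model_asymp : ∃ l0 : ℝ, ∀ l : ℝ, l0 ≤ l → ∀ K : ℕ, 1 ≤ K → (K : ℝ) ≤ l ^ (24 / 25 : ℝ) → ∀ a : Fin K → ℕ,
    ∀ X : ℝ, Real.exp (l ^ 23) ≤ X → ∀ y : ℕ, (y : ℝ) ≤ X →
      |∑ n ∈ Icc 1 y, ∏ i, lamz (zl l) (n + a i) - y * Sz a (zl l)| ≤ X * Real.exp (-l) := by
  obtain ⟨C, hC1, hV⟩ := Vz_scale
  obtain ⟨l1, h1⟩ := grow2 C (1 / 2) hC1 (by norm_num)
  refine ⟨max l1 100, fun l hl K hK1 hKl a X hX y hy => ?_⟩
  have hl1 : l1 ≤ l := (le_max_left _ _).trans hl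
  have hl100 : 100 ≤ l := (le_max_right _ _).trans hl
  have hl0 : 0 < l := by linarith
  have hlone : 1 ≤ l := by linarith
  have hX0 : 0 < X := (Real.exp_pos _).trans_le hX
  obtain ⟨g1, g2⟩ := h1 l hl1 K hKl
  have hVl := hV l (by linarith)
  have hVp := Vz_pos (zl l)
  have hz1 := zl_one l hl0.le
  have hzr : (1 : ℝ) ≤ zl l := by exact_mod_cast hz1
  set r : ℕ := ⌈l ^ 20⌉₊ with hr
  have hr1 : l ^ 20 ≤ r := Nat.le_ceil _
  have hr2 : (r : ℝ) ≤ 2 * l ^ 20 := by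
    have h2 := (Nat.ceil_lt_add_one (show (0 : ℝ) ≤ l ^ 20 by positivity)).le
    have h3 : 1 ≤ l ^ 20 := one_le_pow₀ hlone
    linarith
  have key := multi_sieve hK1 a y (zl l) r hz1
  have hK0 : (1 : ℝ) ≤ K := by exact_mod_cast hK1
  have hlogz : Real.log (zl l) ≤ l := by
    rw [Real.log_le_iff_le_exp (by linarith)]
    exact zl_le l
  -- the first term
  have t1 : (((zl l : ℕ) : ℝ) + 1) * K ≤ Real.exp (3 * l) := by
    have h2 : ((zl l : ℕ) : ℝ) + 1 ≤ Real.exp (2 * l) := by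
      have h3 := zl_le l
      have h4 : 1 ≤ Real.exp l := Real.one_le_exp hl0.le
      have h5 : (2 : ℝ) ≤ Real.exp l := by
        have := Real.add_one_le_exp l
        linarith
      calc ((zl l : ℕ) : ℝ) + 1 ≤ Real.exp l + Real.exp l := by linarith
        _ = 2 * Real.exp l := by ring
        _ ≤ Real.exp l * Real.exp l := by gcongr
        _ = Real.exp (2 * l) := by rw [← Real.exp_add]; congr 1; ring
    have h3 : (K : ℝ) ≤ Real.exp l := by
      have := Real.add_one_le_exp l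
      linarith
    calc (((zl l : ℕ) : ℝ) + 1) * K ≤ Real.exp (2 * l) * Real.exp l := by gcongr
      _ = Real.exp (3 * l) := by rw [← Real.exp_add]; congr 1; ring
  have hp1 : l ^ 23 = l ^ 2 * l ^ 21 := by ring
  have hl21 : 1 ≤ l ^ 21 := one_le_pow₀ hlone
  have hl2' : 10000 ≤ l ^ 2 := by nlinarith
  have hl21' : l ≤ l ^ 21 := le_self_pow₀ hlone (by norm_num)
  have T1 : ((((zl l : ℕ) : ℝ) + 1) * K) ^ r ≤ X * Real.exp (-(2 * l)) := by
    have h2 : ((((zl l : ℕ) : ℝ) + 1) * K) ^ r ≤ Real.exp (6 * l ^ 21) := by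
      calc ((((zl l : ℕ) : ℝ) + 1) * K) ^ r ≤ (Real.exp (3 * l)) ^ r := by gcongr
        _ = Real.exp (r * (3 * l)) := (Real.exp_nat_mul _ _).symm
        _ ≤ Real.exp (6 * l ^ 21) := by
            apply Real.exp_le_exp.2
            calc (r : ℝ) * (3 * l) ≤ (2 * l ^ 20) * (3 * l) := by gcongr
              _ = 6 * l ^ 21 := by ring
    refine h2.trans ?_
    calc Real.exp (6 * l ^ 21) ≤ Real.exp (l ^ 23 + -(2 * l)) := by
          apply Real.exp_le_exp.2
          rw [hp1]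
          nlinarith
      _ = Real.exp (l ^ 23) * Real.exp (-(2 * l)) := Real.exp_add _ _
      _ ≤ _ := by gcongr
  have T2 : 2 * (y : ℝ) * Real.exp (3 * (K * (1 + Real.log (zl l))) - r) ≤ X * Real.exp (-(2 * l)) := by
    have h2 : 3 * (K * (1 + Real.log (zl l))) - r ≤ -(2 * l) - 1 := by
      have h3 : (K : ℝ) * (1 + Real.log (zl l)) ≤ l * (1 + l) := by
        have h4 : 0 ≤ 1 + Real.log (zl l) := by
          have := Real.log_nonneg hzr
          linarith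
        gcongr
      have h5 : l ^ 20 = l ^ 2 * l ^ 18 := by ring
      have h6 : 1 ≤ l ^ 18 := one_le_pow₀ hlone
      have h7 : (100 : ℝ) ≤ l ^ 18 := by
        have : l ≤ l ^ 18 := le_self_pow₀ hlone (by norm_num)
        linarith
      nlinarith
    have h8 : (2 : ℝ) ≤ Real.exp 1 := by
      have := Real.add_one_le_exp (1 : ℝ)
      linarith
    calc 2 * (y : ℝ) * Real.exp (3 * (K * (1 + Real.log (zl l))) - r) ≤ Real.exp 1 * X * Real.exp (-(2 * l) - 1) := by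
          gcongr
      _ = X * (Real.exp 1 * Real.exp (-(2 * l) - 1)) := by ring
      _ = X * Real.exp (-(2 * l)) := by rw [← Real.exp_add]; congr 2; ring
  have hsum : ∑ n ∈ Icc 1 y, ∏ i, lamz (zl l) (n + a i) =
      (Vz (zl l))⁻¹ ^ K * ((((Icc 1 y).filter (fun n => ∀ p ∈ pz (zl l), ¬ Ap a p n)).card : ℕ) : ℝ) := by
    have h2 : ∀ n ∈ Icc 1 y, ∏ i, lamz (zl l) (n + a i) = if (∀ p ∈ pz (zl l), ¬ Ap a p n) then (Vz (zl l))⁻¹ ^ K else 0 := by
      intro n _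
      split_ifs with h
      · have h3 : ∀ i : Fin K, lamz (zl l) (n + a i) = (Vz (zl l))⁻¹ := by
          intro i
          unfold lamz
          rw [if_pos]
          intro p hp hd
          exact h p hp ⟨i, hd⟩
        rw [prod_congr rfl fun i _ => h3 i, prod_const, card_univ, Fintype.card_fin]
      · push Not at h
        obtain ⟨p, hp, i, hi⟩ := h
        apply prod_eq_zero (mem_univ i)
        unfold lamz
        rw [if_neg]
        intro h4
        exact h4 p hp hi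
    rw [sum_congr rfl h2, ← sum_filter, sum_const, nsmul_eq_mul, mul_comm]
  rw [hsum, Sz_eq]
  have e : (Vz (zl l))⁻¹ ^ K * ((((Icc 1 y).filter (fun n => ∀ p ∈ pz (zl l), ¬ Ap a p n)).card : ℕ) : ℝ) -
      y * ((Vz (zl l))⁻¹ ^ K * ∏ p ∈ pz (zl l), (1 - (nup a p : ℝ) / p)) =
      (Vz (zl l))⁻¹ ^ K * (((((Icc 1 y).filter (fun n => ∀ p ∈ pz (zl l), ¬ Ap a p n)).card : ℕ) : ℝ) -
        y * ∏ p ∈ pz (zl l), (1 - (nup a p : ℝ) / p)) := by ring
  have hVK : (Vz (zl l))⁻¹ ^ K ≤ Real.exp (1 / 2 * l) := by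
    refine le_trans ?_ g1
    have h2 : l ^ 2 ≤ l ^ 50 := pow_le_pow_right₀ hlone (by norm_num)
    have h3 : (Vz (zl l))⁻¹ ≤ C * l ^ 50 := hVl.trans (by gcongr)
    gcongr
  rw [e, abs_mul, abs_of_nonneg (by positivity)]
  calc (Vz (zl l))⁻¹ ^ K * |_| ≤ Real.exp (1 / 2 * l) * (X * Real.exp (-(2 * l)) + X * Real.exp (-(2 * l))) := by
        apply mul_le_mul hVK (key.trans (add_le_add T1 T2)) (abs_nonneg _) (by positivity)
    _ = X * (2 * (Real.exp (1 / 2 * l) * Real.exp (-(2 * l)))) := by ring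
    _ = X * (2 * Real.exp (1 / 2 * l + -(2 * l))) := by rw [← Real.exp_add]
    _ ≤ X * (Real.exp 1 * Real.exp (1 / 2 * l + -(2 * l))) := by
        have := Real.add_one_le_exp (1 : ℝ)
        gcongr
        linarith
    _ = X * Real.exp (1 + (1 / 2 * l + -(2 * l))) := by rw [← Real.exp_add]
    _ ≤ X * Real.exp (-l) := by
        gcongr
        linarith

/-- the trivial bounds at the scale `l` -/
theorem triv_bounds : ∃ C l0 : ℝ, 1 ≤ C ∧ ∀ l : ℝ, l0 ≤ l → ∀ N : ℕ, (N : ℝ) ≤ Real.exp (l ^ 41) → ∀ n, 1 ≤ n → n ≤ N →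
    (0 ≤ Fp n ∧ Fp n ≤ C * l ^ 50) ∧ (0 ≤ lamz (zl l) n ∧ lamz (zl l) n ≤ C * l ^ 50) := by
  obtain ⟨C, hC1, hV⟩ := Vz_scale
  refine ⟨C, 4, hC1, fun l hl N hN n hn1 hn2 => ?_⟩
  have hlone : 1 ≤ l := by linarith
  have hNp : 1 ≤ N := hn1.trans hn2
  have hN0 : (0 : ℝ) < N := by exact_mod_cast hNp
  have hlogN : Real.log N ≤ l ^ 41 := by
    rw [Real.log_le_iff_le_exp hN0]; exact hN
  refine ⟨⟨Fp_nonneg n, ?_⟩, ⟨lamz_nonneg _ _, ?_⟩⟩
  · have h5 : Fp n ≤ Real.log n := by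
      unfold Fp
      split_ifs
      · exact le_rfl
      · exact Real.log_natCast_nonneg n
    have h6 : Real.log n ≤ Real.log N := by
      apply Real.log_le_log (by exact_mod_cast hn1)
      exact_mod_cast hn2
    have h7 : l ^ 41 ≤ l ^ 50 := pow_le_pow_right₀ hlone (by norm_num)
    have h8 : 1 * l ^ 50 ≤ C * l ^ 50 := by gcongr
    linarith
  · have h5 : lamz (zl l) n ≤ (Vz (zl l))⁻¹ := by
      unfold lamz
      have := Vz_pos (zl l)
      split_ifs
      · exact le_rfl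
      · positivity
    have h7 : l ^ 2 ≤ l ^ 50 := pow_le_pow_right₀ hlone (by norm_num)
    refine (h5.trans (hV l hl)).trans ?_
    gcongr

/-- the average over all tuples of shifts -/
theorem all_avg : ∃ l0 : ℝ, ∀ l : ℝ, l0 ≤ l → GoodScale l → ∀ H : ℕ, Real.exp (l ^ 23) ≤ H → ((2 * H : ℕ) : ℝ) ≤ Real.exp (l ^ 41) →
    ∀ K : ℕ, 1 ≤ K → (K : ℝ) ≤ l ^ (24 / 25 : ℝ) → ∀ c : ℕ → ℝ, (∀ n, |c n| ≤ 1) →
      ∑ v ∈ Fintype.piFinset (fun _ : Fin K => Icc 1 (H + 1)),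
        |∑ n ∈ Icc 1 H, c n * (∏ i, Fp (n + v i - 1) - ∏ i, lamz (zl l) (n + v i - 1))| ≤
        H * Real.exp (-(l / 1600)) * ((H : ℝ) + 1) ^ K := by
  obtain ⟨C, l1, hC1, hb⟩ := triv_bounds
  obtain ⟨l2, h2⟩ := grow2 (4 * C) (1 / 48000) (by linarith) (by norm_num)
  refine ⟨max (max l1 l2) 1, fun l hl hgood H hH1 hH2 K hK1 hKl c hc => ?_⟩
  have hl1 : l1 ≤ l := ((le_max_left _ _).trans (le_max_left _ _)).trans hl
  have hl2 : l2 ≤ l := ((le_max_right _ _).trans (le_max_left _ _)).trans hl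
  have hlone : 1 ≤ l := (le_max_right _ _).trans hl
  have hl0 : 0 < l := by linarith
  have hH0 : (0 : ℝ) < H := (Real.exp_pos _).trans_le hH1
  obtain ⟨g1, g2⟩ := h2 l hl2 K hKl
  set B : ℝ := C * l ^ 50 with hB
  have hl50 : 1 ≤ l ^ 50 := one_le_pow₀ hlone
  have hB1 : 1 ≤ B := by rw [hB]; nlinarith
  have hN1 : Real.exp (l ^ 23) ≤ ((2 * H : ℕ) : ℝ) := by
    push_cast
    linarith
  set δ : ℝ := ((2 * H : ℕ) : ℝ) * Real.exp (-(l / 1500)) with hδd
  have hd : ∀ α : ℝ, ‖∑ n ∈ Icc 1 (2 * H), ((Fp n - lamz (zl l) n : ℝ) : ℂ) * ee ((n : ℝ) * α)‖ ≤ δ :=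
    fun α => hgood (2 * H) hN1 hH2 α
  have hδ : 0 ≤ δ := (norm_nonneg _).trans (hd 0)
  have h := tele (k := K) H (fun _ => H + 1) (fun _ => by omega) (fun _ n v => Fp (n + v - 1)) (fun _ n v => lamz (zl l) (n + v - 1)) B δ hB1 hδ
    (fun i n hn v hv => by
      rw [mem_Icc] at hn hv
      have h3 := (hb l hl1 (2 * H) hH2 (n + v - 1) (by omega) (by omega)).1
      rw [abs_of_nonneg h3.1]
      exact h3.2)
    (fun i n hn v hv => by
      rw [mem_Icc] at hn hv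
      have h3 := (hb l hl1 (2 * H) hH2 (n + v - 1) (by omega) (by omega)).2
      rw [abs_of_nonneg h3.1]
      exact h3.2)
    (fun i K hK G hG => by
      have h1 := l1_of_bil H (H + 1) (fun n v => Fp (n + v - 1) - lamz (zl l) (n + v - 1)) (δ * (H + 1)) K hK
        (fun G c hG hc => bil_sq H (fun m => Fp m - lamz (zl l) m) δ hd G c hG hc) G hG
      push_cast
      exact h1) univ 1 one_pos (fun n _ => c n) (fun n _ m _ => hc n) (fun _ _ _ _ _ => rfl)
  simp only [one_mul, card_univ, Fintype.card_fin, prod_const] at h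
  refine h.trans ?_
  push_cast
  apply mul_le_mul_of_nonneg_right _ (by positivity)
  have e1 : (K : ℝ) * (B ^ K * 2) ≤ Real.exp (1 / 48000 * l) := by
    refine le_trans ?_ g1
    have e1 : (K : ℝ) ≤ 2 ^ K := by exact_mod_cast Nat.lt_two_pow_self.le
    have e2 : (2 : ℝ) ≤ 2 ^ K := by
      calc (2 : ℝ) = 2 ^ 1 := by norm_num
        _ ≤ 2 ^ K := pow_le_pow_right₀ (by norm_num) hK1
    calc (K : ℝ) * (B ^ K * 2) ≤ 2 ^ K * (B ^ K * 2 ^ K) := by gcongr
      _ = (4 * C * l ^ 50) ^ K := by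
          rw [← mul_pow, ← mul_pow, hB]; congr 1; ring
  calc (K : ℝ) * (B ^ K * δ) = ((K : ℝ) * (B ^ K * 2)) * (H * Real.exp (-(l / 1500))) := by
        rw [hδd]; push_cast; ring
    _ ≤ Real.exp (1 / 48000 * l) * (H * Real.exp (-(l / 1500))) := by gcongr
    _ = H * (Real.exp (1 / 48000 * l) * Real.exp (-(l / 1500))) := by ring
    _ = H * Real.exp (1 / 48000 * l + -(l / 1500)) := by rw [← Real.exp_add]
    _ ≤ H * Real.exp (-(l / 1600)) := by
        gcongr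
        linarith

end

end Run7.h402.PW
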