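import Mathlib
import Pool.Agent.Run7.h402.PW.W4

/-!
# Averages over all constellations with an unshifted prime
-/

set_option autoImplicit false

open Finset

namespace Run7.h402.PW

open Run7.h402.PT
open Pool.Agent.H373R2.T7

noncomputable section

/-- the tuple `(0, m_1, …, m_k)` -/
def cz {k : ℕ} (m : Fin k → ℕ) : Fin (k + 1) → ℕ := Fin.cons 0 m

theorem shift_sum (D : ℕ → ℝ) (B : ℝ) (y t : ℕ) (hD : ∀ n, 1 ≤ n → n ≤ y + t → |D n| ≤ B) :
    |∑ n ∈ Icc 1 y, D n - ∑ n ∈ Icc 1 y, D (n + t)| ≤ 2 * t * B := by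
  induction t with
  | zero => simp
  | succ t ih =>
    have h1 := ih (fun n hn1 hn2 => hD n hn1 (by omega))
    have h2 : ∑ n ∈ Icc 1 y, D (n + t) - ∑ n ∈ Icc 1 y, D (n + (t + 1)) = D (1 + t) - D (y + 1 + t) := by
      have e : ∀ f : ℕ → ℝ, ∑ n ∈ Icc 1 y, f n = ∑ j ∈ range y, f (j + 1) := by
        intro f
        rw [range_eq_Ico, sum_Ico_add' f 0 y 1]
        apply sum_congr _ fun _ _ => rfl
        ext n
        simp only [mem_Icc, mem_Ico]
        omega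
      rw [e (fun n => D (n + t)), e (fun n => D (n + (t + 1))), ← sum_sub_distrib]
      have h3 := sum_range_sub' (fun j => D (j + 1 + t)) y
      rw [zero_add] at h3
      rw [← h3]
      apply sum_congr rfl
      intro j _
      congr 2
      ring
    have h3 := hD (1 + t) (by omega) (by omega)
    have h4 := hD (y + 1 + t) (by omega) (by omega)
    have e : ∑ n ∈ Icc 1 y, D n - ∑ n ∈ Icc 1 y, D (n + (t + 1)) =
        (∑ n ∈ Icc 1 y, D n - ∑ n ∈ Icc 1 y, D (n + t)) + (D (1 + t) - D (y + 1 + t)) := by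
      rw [← h2]; ring
    rw [e]
    refine (abs_add_le _ _).trans ?_
    have h5 := abs_sub (D (1 + t)) (D (y + 1 + t))
    push_cast
    linarith

/-- the average over the constellations -/
theorem const_avg : ∃ l0 : ℝ, ∀ l : ℝ, l0 ≤ l → GoodScale l → ∀ X : ℕ, Real.exp (l ^ 23) ≤ X → ((4 * X : ℕ) : ℝ) ≤ Real.exp (l ^ 41) →
    ∀ k : ℕ, ((k + 1 : ℕ) : ℝ) ≤ l ^ (24 / 25 : ℝ) → ∀ y : ℕ, y ≤ X →
      ∑ m ∈ Fintype.piFinset (fun _ : Fin k => Icc 1 X),
        |∑ n ∈ Icc 1 y, (∏ i, Fp (n + cz m i) - ∏ i, lamz (zl l) (n + cz m i))| ≤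
        X * Real.exp (-(l / 4000)) * (X : ℝ) ^ k := by
  obtain ⟨l1, h1⟩ := all_avg
  obtain ⟨C, l2, hC1, hb⟩ := triv_bounds
  obtain ⟨l3, h3⟩ := grow2 (18 * C) (1 / 100000) (by linarith) (by norm_num)
  refine ⟨max (max l1 l2) (max l3 1), fun l hl hgood X hX1 hX2 k hkl y hy => ?_⟩
  have hl1 : l1 ≤ l := ((le_max_left _ _).trans (le_max_left _ _)).trans hl
  have hl2 : l2 ≤ l := ((le_max_right _ _).trans (le_max_left _ _)).trans hl
  have hl3 : l3 ≤ l := ((le_max_left _ _).trans (le_max_right _ _)).trans hl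
  have hlone : 1 ≤ l := ((le_max_right _ _).trans (le_max_right _ _)).trans hl
  have hl0 : 0 < l := by linarith
  have hX0 : (0 : ℝ) < X := (Real.exp_pos _).trans_le hX1
  have hXn : 1 ≤ X := by exact_mod_cast hX0
  obtain ⟨g1, g2⟩ := h3 l hl3 (k + 1) hkl
  set B : ℝ := C * l ^ 50 with hB
  have hl50 : 1 ≤ l ^ 50 := one_le_pow₀ hlone
  have hB1 : 1 ≤ B := by rw [hB]; nlinarith
  set E : (Fin (k + 1) → ℕ) → ℝ := fun v =>
    |∑ n ∈ Icc 1 (2 * X), (if n ≤ y then (1 : ℝ) else 0) * (∏ i, Fp (n + v i - 1) - ∏ i, lamz (zl l) (n + v i - 1))| with hE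
  have hE0 : ∀ v, 0 ≤ E v := fun v => abs_nonneg _
  have key := h1 l hl1 hgood (2 * X) (by push_cast; linarith) (by
    refine le_trans (le_of_eq ?_) hX2
    push_cast
    ring) (k + 1) (by omega) hkl (fun n => if n ≤ y then 1 else 0) (fun n => by
      split_ifs <;> simp)
  set D : (Fin k → ℕ) → ℕ → ℝ := fun m n => ∏ i, Fp (n + cz m i) - ∏ i, lamz (zl l) (n + cz m i) with hD
  set e0 : ℝ := Real.exp (-(l / 3200)) with he0
  have he0pos : 0 < e0 := Real.exp_pos _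
  have he01 : e0 ≤ 1 := by
    rw [he0, Real.exp_le_one_iff]
    linarith
  set U : ℕ := ⌈X * e0⌉₊ with hU
  have hU1 : X * e0 ≤ U := Nat.le_ceil _
  have hUX : U ≤ X := by
    rw [hU, Nat.ceil_le]
    nlinarith
  have hXe1 : 1 ≤ X * e0 := by
    calc (1 : ℝ) = Real.exp 0 := Real.exp_zero.symm
      _ ≤ Real.exp (l ^ 23 + -(l / 3200)) := by
          apply Real.exp_le_exp.2
          have : l ≤ l ^ 23 := le_self_pow₀ hlone (by norm_num)
          linarith
      _ = Real.exp (l ^ 23) * e0 := Real.exp_add _ _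
      _ ≤ _ := by gcongr
  have hU2 : (U : ℝ) ≤ 2 * (X * e0) := by
    have := (Nat.ceil_lt_add_one (show 0 ≤ X * e0 by positivity)).le
    linarith
  have hU0 : (0 : ℝ) < U := by linarith
  -- pointwise bounds
  have hDB : ∀ m ∈ Fintype.piFinset (fun _ : Fin k => Icc 1 X), ∀ n, 1 ≤ n → n ≤ 2 * X → |D m n| ≤ B ^ (k + 1) := by
    intro m hm n hn1 hn2
    rw [Fintype.mem_piFinset] at hm
    have hcz : ∀ i, cz m i ≤ X := by
      intro i
      refine Fin.cases ?_ (fun j => ?_) i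
      · exact Nat.zero_le _
      · have := mem_Icc.1 (hm j)
        exact this.2
    have hF : ∀ i, (0 ≤ Fp (n + cz m i) ∧ Fp (n + cz m i) ≤ B) ∧ (0 ≤ lamz (zl l) (n + cz m i) ∧ lamz (zl l) (n + cz m i) ≤ B) := by
      intro i
      exact hb l hl2 (4 * X) hX2 (n + cz m i) (by omega) (by have := hcz i; omega)
    have p1 : 0 ≤ ∏ i, Fp (n + cz m i) := prod_nonneg fun i _ => (hF i).1.1
    have p2 : ∏ i, Fp (n + cz m i) ≤ B ^ (k + 1) := by
      have := prod_le_prod (s := univ) (fun i _ => (hF i).1.1) (fun i _ => (hF i).1.2)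
      rwa [prod_const, card_univ, Fintype.card_fin] at this
    have p3 : 0 ≤ ∏ i, lamz (zl l) (n + cz m i) := prod_nonneg fun i _ => (hF i).2.1
    have p4 : ∏ i, lamz (zl l) (n + cz m i) ≤ B ^ (k + 1) := by
      have := prod_le_prod (s := univ) (fun i _ => (hF i).2.1) (fun i _ => (hF i).2.2)
      rwa [prod_const, card_univ, Fintype.card_fin] at this
    rw [hD, abs_le]
    constructor <;> simp only <;> linarith
  have hEv : ∀ u ∈ Icc 1 U, ∀ m : Fin k → ℕ, E (fun i => u + cz m i) = |∑ n ∈ Icc 1 y, D m (n + (u - 1))| := by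
    intro u hu m
    rw [mem_Icc] at hu
    rw [hE]
    simp only [ite_mul, one_mul, zero_mul]
    congr 1
    rw [← sum_filter]
    have hs : (Icc 1 (2 * X)).filter (fun n => n ≤ y) = Icc 1 y := by
      ext n
      simp only [mem_filter, mem_Icc]
      omega
    rw [hs]
    apply sum_congr rfl
    intro n hn
    rw [mem_Icc] at hn
    rw [hD]
    simp only
    have e : ∀ i, n + (u + cz m i) - 1 = n + (u - 1) + cz m i := by intro i; omega
    simp only [e]
  have hstep : ∀ u ∈ Icc 1 U, ∑ m ∈ Fintype.piFinset (fun _ : Fin k => Icc 1 X), |∑ n ∈ Icc 1 y, D m n| ≤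
      ∑ m ∈ Fintype.piFinset (fun _ : Fin k => Icc 1 X), E (fun i => u + cz m i) + (X : ℝ) ^ k * (2 * U * B ^ (k + 1)) := by
    intro u hu
    have hcard : ((Fintype.piFinset (fun _ : Fin k => Icc 1 X)).card : ℝ) = (X : ℝ) ^ k := by
      rw [Fintype.card_piFinset]
      simp
    rw [← hcard, ← nsmul_eq_mul, ← sum_const, ← sum_add_distrib]
    apply sum_le_sum
    intro m hm
    rw [hEv u hu m]
    rw [mem_Icc] at hu
    have h5 := shift_sum (D m) (B ^ (k + 1)) y (u - 1) (fun n hn1 hn2 => hDB m hm n hn1 (by omega))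
    have h6 : 2 * ((u - 1 : ℕ) : ℝ) * B ^ (k + 1) ≤ 2 * U * B ^ (k + 1) := by
      have h7 : ((u - 1 : ℕ) : ℝ) ≤ U := by exact_mod_cast (by omega : u - 1 ≤ U)
      gcongr
    have h8 := abs_sub_abs_le_abs_sub (∑ n ∈ Icc 1 y, D m n) (∑ n ∈ Icc 1 y, D m (n + (u - 1)))
    linarith
  have hinj : ∑ u ∈ Icc 1 U, ∑ m ∈ Fintype.piFinset (fun _ : Fin k => Icc 1 X), E (fun i => u + cz m i) ≤
      ∑ v ∈ Fintype.piFinset (fun _ : Fin (k + 1) => Icc 1 (2 * X + 1)), E v := by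
    rw [← sum_product']
    have hφ : Set.InjOn (fun x : ℕ × (Fin k → ℕ) => (fun i => x.1 + cz x.2 i : Fin (k + 1) → ℕ))
        ((Icc 1 U ×ˢ Fintype.piFinset (fun _ : Fin k => Icc 1 X) : Finset (ℕ × (Fin k → ℕ))) : Set (ℕ × (Fin k → ℕ))) := by
      rintro ⟨u, m⟩ _ ⟨u', m'⟩ _ h
      simp only at h
      have h0 := congrFun h 0
      simp only [cz, Fin.cons_zero, add_zero] at h0
      have hj : ∀ j : Fin k, m j = m' j := by
        intro j
        have := congrFun h j.succ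
        simp only [cz, Fin.cons_succ] at this
        omega
      rw [h0, funext hj]
    rw [← sum_image (f := E) (g := fun x : ℕ × (Fin k → ℕ) => (fun i => x.1 + cz x.2 i : Fin (k + 1) → ℕ)) hφ]
    apply sum_le_sum_of_subset_of_nonneg
    · intro v hv
      rw [mem_image] at hv
      obtain ⟨⟨u, m⟩, hx, rfl⟩ := hv
      rw [mem_product, Fintype.mem_piFinset] at hx
      rw [Fintype.mem_piFinset]
      intro i
      have hu := mem_Icc.1 hx.1
      rw [mem_Icc]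
      refine Fin.cases ?_ (fun j => ?_) i
      · simp only [cz, Fin.cons_zero]
        omega
      · have hj := mem_Icc.1 (hx.2 j)
        simp only [cz, Fin.cons_succ]
        simp only at hj
        omega
    · intro v _ _
      exact hE0 v
  have hsumU : (U : ℝ) * ∑ m ∈ Fintype.piFinset (fun _ : Fin k => Icc 1 X), |∑ n ∈ Icc 1 y, D m n| ≤
      ((2 * X : ℕ) : ℝ) * Real.exp (-(l / 1600)) * (((2 * X : ℕ) : ℝ) + 1) ^ (k + 1) + U * ((X : ℝ) ^ k * (2 * U * B ^ (k + 1))) := by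
    have h5 := sum_le_sum hstep
    rw [sum_const, Nat.card_Icc, Nat.add_sub_cancel, nsmul_eq_mul, sum_add_distrib, sum_const, Nat.card_Icc, Nat.add_sub_cancel,
      nsmul_eq_mul] at h5
    refine h5.trans ?_
    gcongr
    exact hinj.trans key
  have h6 : ((2 * X : ℕ) : ℝ) + 1 ≤ 3 * X := by
    have : (1 : ℝ) ≤ X := by exact_mod_cast hXn
    push_cast
    linarith
  have hfin : ∑ m ∈ Fintype.piFinset (fun _ : Fin k => Icc 1 X), |∑ n ∈ Icc 1 y, D m n| ≤
      (X : ℝ) ^ (k + 1) * e0 * (2 * 3 ^ (k + 1) + 4 * B ^ (k + 1)) := by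
    have h7 : Real.exp (-(l / 1600)) = e0 * e0 := by
      rw [he0, ← Real.exp_add]; congr 1; ring
    have h8 : ((2 * X : ℕ) : ℝ) * Real.exp (-(l / 1600)) * (((2 * X : ℕ) : ℝ) + 1) ^ (k + 1) ≤
        U * ((X : ℝ) ^ (k + 1) * e0 * (2 * 3 ^ (k + 1))) := by
      calc ((2 * X : ℕ) : ℝ) * Real.exp (-(l / 1600)) * (((2 * X : ℕ) : ℝ) + 1) ^ (k + 1) ≤
          ((2 * X : ℕ) : ℝ) * Real.exp (-(l / 1600)) * (3 * (X : ℝ)) ^ (k + 1) := by gcongr
        _ = (X * e0) * ((X : ℝ) ^ (k + 1) * e0 * (2 * 3 ^ (k + 1))) := by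
            rw [h7, mul_pow]
            push_cast
            ring
        _ ≤ _ := by gcongr
    have h9 : (X : ℝ) ^ k * (2 * U * B ^ (k + 1)) ≤ (X : ℝ) ^ (k + 1) * e0 * (4 * B ^ (k + 1)) := by
      calc (X : ℝ) ^ k * (2 * U * B ^ (k + 1)) ≤ (X : ℝ) ^ k * (2 * (2 * (X * e0)) * B ^ (k + 1)) := by gcongr
        _ = _ := by ring
    have h10 : (U : ℝ) * ∑ m ∈ Fintype.piFinset (fun _ : Fin k => Icc 1 X), |∑ n ∈ Icc 1 y, D m n| ≤
        U * ((X : ℝ) ^ (k + 1) * e0 * (2 * 3 ^ (k + 1) + 4 * B ^ (k + 1))) := by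
      refine hsumU.trans ?_
      calc _ ≤ U * ((X : ℝ) ^ (k + 1) * e0 * (2 * 3 ^ (k + 1))) + U * ((X : ℝ) ^ (k + 1) * e0 * (4 * B ^ (k + 1))) := by gcongr
        _ = _ := by ring
    exact le_of_mul_le_mul_left h10 hU0
  refine hfin.trans ?_
  have h11 : 2 * 3 ^ (k + 1) + 4 * B ^ (k + 1) ≤ Real.exp (1 / 100000 * l) := by
    refine le_trans ?_ g1
    have e1 : (1 : ℝ) ≤ B ^ (k + 1) := one_le_pow₀ hB1
    have e2 : (1 : ℝ) ≤ 3 ^ (k + 1) := one_le_pow₀ (by norm_num)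
    have e3 : (6 : ℝ) ≤ 6 ^ (k + 1) := le_self_pow₀ (by norm_num) (by omega)
    calc 2 * 3 ^ (k + 1) + 4 * B ^ (k + 1) ≤ 2 * (3 ^ (k + 1) * B ^ (k + 1)) + 4 * (3 ^ (k + 1) * B ^ (k + 1)) := by
          gcongr
          · exact le_mul_of_one_le_right (by positivity) e1
          · exact le_mul_of_one_le_left (by positivity) e2
      _ = 6 * (3 ^ (k + 1) * B ^ (k + 1)) := by ring
      _ ≤ 6 ^ (k + 1) * (3 ^ (k + 1) * B ^ (k + 1)) := by gcongr
      _ = (18 * C * l ^ 50) ^ (k + 1) := by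
          rw [← mul_pow, ← mul_pow, hB]; congr 1; ring
  calc (X : ℝ) ^ (k + 1) * e0 * (2 * 3 ^ (k + 1) + 4 * B ^ (k + 1)) ≤ (X : ℝ) ^ (k + 1) * e0 * Real.exp (1 / 100000 * l) := by gcongr
    _ = X * (e0 * Real.exp (1 / 100000 * l)) * (X : ℝ) ^ k := by ring
    _ = X * Real.exp (-(l / 3200) + 1 / 100000 * l) * (X : ℝ) ^ k := by rw [he0, ← Real.exp_add]
    _ ≤ X * Real.exp (-(l / 4000)) * (X : ℝ) ^ k := by
        gcongr
        linarith

end

end Run7.h402.PW
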