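import Mathlib
import Pool.Agent.Run7.h402.PW.W5

/-!
# The singular series: the tail of the product, and its limit
-/

set_option autoImplicit false

open Finset
open Filter (Tendsto atTop)
open scoped Topology

namespace Run7.h402.PW

open Run7.h402.PT
open Pool.Agent.H373R2.T7

noncomputable section

/-- one factor of the singular series -/
def fac {K : ℕ} (a : Fin K → ℕ) (p : ℕ) : ℝ := (1 - (nup a p : ℝ) / p) / (1 - 1 / (p : ℝ)) ^ K

theorem fac_nonneg {K : ℕ} (a : Fin K → ℕ) (p : ℕ) (hp : p.Prime) : 0 ≤ fac a p := by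
  have hp2 : (2 : ℝ) ≤ p := by exact_mod_cast hp.two_le
  unfold fac
  apply div_nonneg
  · have h1 : (nup a p : ℝ) ≤ p := by
      have : nup a p ≤ p := by
        unfold nup
        exact (card_filter_le _ _).trans (by rw [card_range])
      exact_mod_cast this
    have h2 : (nup a p : ℝ) / p ≤ 1 := by
      rw [div_le_one (by linarith)]
      exact h1
    linarith
  · apply pow_nonneg
    have : 1 / (p : ℝ) ≤ 1 := by
      rw [div_le_one (by linarith)]
      linarith
    linarith

theorem Sz_nonneg {K : ℕ} (a : Fin K → ℕ) (z : ℕ) : 0 ≤ Sz a z :=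
  prod_nonneg fun p hp => fac_nonneg a p (mem_pz.1 hp).2

theorem fac_low {K : ℕ} (a : Fin K → ℕ) (p : ℕ) (hp : p.Prime) (hK : 2 * K ≤ p) : 1 - (K : ℝ) ^ 2 / (p : ℝ) ^ 2 ≤ fac a p := by
  have hp2 : (2 : ℝ) ≤ p := by exact_mod_cast hp.two_le
  have hp0 : (0 : ℝ) < p := by linarith
  set x : ℝ := 1 / (p : ℝ) with hx
  have hx0 : 0 < x := by positivity
  have hx1 : x ≤ 1 / 2 := by
    rw [hx]
    exact one_div_le_one_div_of_le (by norm_num) hp2
  have hKx : (K : ℝ) * x ≤ 1 / 2 := by
    have h1 : 2 * (K : ℝ) ≤ p := by exact_mod_cast hK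
    rw [hx, mul_one_div, div_le_iff₀ hp0]
    linarith
  have hnu : (nup a p : ℝ) ≤ K := by exact_mod_cast nup_le a p hp.one_lt.le
  unfold fac
  rw [le_div_iff₀ (by
    apply pow_pos
    linarith)]
  have h1 : (1 - x) ^ K * (1 + K * x) ≤ 1 := by
    have h2 : 1 + (K : ℝ) * x ≤ (1 + x) ^ K := one_add_mul_le_pow (by linarith) K
    calc (1 - x) ^ K * (1 + K * x) ≤ (1 - x) ^ K * (1 + x) ^ K := by
          apply mul_le_mul_of_nonneg_left h2
          apply pow_nonneg
          linarith
      _ = (1 - x ^ 2) ^ K := by rw [← mul_pow]; congr 1; ring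
      _ ≤ 1 := pow_le_one₀ (by nlinarith) (by nlinarith)
  have e : (1 : ℝ) - (K : ℝ) ^ 2 / (p : ℝ) ^ 2 = (1 - K * x) * (1 + K * x) := by
    rw [hx]; field_simp; ring
  rw [e]
  calc (1 - K * x) * (1 + K * x) * (1 - x) ^ K = (1 - K * x) * ((1 - x) ^ K * (1 + K * x)) := by ring
    _ ≤ (1 - K * x) * 1 := by
        apply mul_le_mul_of_nonneg_left h1
        linarith
    _ = 1 - K * x := mul_one _
    _ ≤ 1 - (nup a p : ℝ) / p := by
        have : (nup a p : ℝ) / p ≤ K * x := by
          rw [hx, mul_one_div]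
          gcongr
        linarith

theorem fac_up {K : ℕ} (a : Fin K → ℕ) (p : ℕ) (hp : p.Prime) (hK : 2 * K ≤ p) : fac a p ≤ 1 + 2 * K / (p : ℝ) := by
  have hp2 : (2 : ℝ) ≤ p := by exact_mod_cast hp.two_le
  have hp0 : (0 : ℝ) < p := by linarith
  set x : ℝ := 1 / (p : ℝ) with hx
  have hx0 : 0 < x := by positivity
  have hx1 : x ≤ 1 / 2 := by
    rw [hx]
    exact one_div_le_one_div_of_le (by norm_num) hp2
  have hKx : (K : ℝ) * x ≤ 1 / 2 := by
    have h1 : 2 * (K : ℝ) ≤ p := by exact_mod_cast hK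
    rw [hx, mul_one_div, div_le_iff₀ hp0]
    linarith
  have hKx0 : 0 ≤ (K : ℝ) * x := by positivity
  unfold fac
  rw [div_le_iff₀ (by
    apply pow_pos
    linarith)]
  have h1 : 1 - (K : ℝ) * x ≤ (1 - x) ^ K := by
    have := one_add_mul_le_pow (show -2 ≤ -x by linarith) K
    have e : 1 + (K : ℝ) * -x = 1 - K * x := by ring
    rw [e] at this
    have e2 : 1 + -x = 1 - x := by ring
    rwa [e2] at this
  have h2 : 0 ≤ (nup a p : ℝ) / p := by positivity
  have e3 : 2 * (K : ℝ) / p = 2 * (K * x) := by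
    rw [hx]; ring
  rw [e3]
  calc 1 - (nup a p : ℝ) / p ≤ 1 := by linarith
    _ ≤ (1 + 2 * (K * x)) * (1 - K * x) := by nlinarith
    _ ≤ (1 + 2 * (K * x)) * (1 - x) ^ K := by
        apply mul_le_mul_of_nonneg_left h1
        linarith

/-- the number of residue classes is `K` when the shifts are incongruent -/
theorem nup_eq {K : ℕ} (a : Fin K → ℕ) (p : ℕ) (hp : 1 ≤ p) (hinj : ∀ i j, i ≠ j → ¬ a i ≡ a j [MOD p]) : nup a p = K := by
  apply le_antisymm (nup_le a p hp)
  unfold nup
  have h1 : (univ : Finset (Fin K)).image (fun i => (p - a i % p) % p) ⊆ (range p).filter (fun b => Ap a p b) := by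
    intro b hb
    rw [mem_image] at hb
    obtain ⟨i, _, rfl⟩ := hb
    rw [mem_filter, mem_range]
    refine ⟨Nat.mod_lt _ (by omega), i, ?_⟩
    rw [Nat.dvd_iff_mod_eq_zero, Nat.add_mod, Nat.mod_mod, ← Nat.add_mod]
    have h2 : p - a i % p + a i = p * (a i / p + 1) := by
      have h3 := Nat.mod_add_div (a i) p
      have h4 := Nat.mod_lt (a i) (show 0 < p by omega)
      have h5 : p * (a i / p + 1) = p * (a i / p) + p := by ring
      omega
    rw [h2, Nat.mul_mod_right]
  have h2 := card_le_card h1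
  rw [card_image_of_injective, card_univ, Fintype.card_fin] at h2
  · exact h2
  · intro i j hij
    by_contra hne
    apply hinj i j hne
    simp only at hij
    have h3 := Nat.mod_lt (a i) (show 0 < p by omega)
    have h4 := Nat.mod_lt (a j) (show 0 < p by omega)
    unfold Nat.ModEq
    have e1 : 0 < a i % p → (p - a i % p) % p = p - a i % p := fun h => Nat.mod_eq_of_lt (by omega)
    have e2 : 0 < a j % p → (p - a j % p) % p = p - a j % p := fun h => Nat.mod_eq_of_lt (by omega)
    rcases Nat.eq_zero_or_pos (a i % p) with h5 | h5 <;> rcases Nat.eq_zero_or_pos (a j % p) with h6 | h6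
    · omega
    · rw [h5, Nat.sub_zero, Nat.mod_self, e2 h6] at hij
      omega
    · rw [h6, Nat.sub_zero, Nat.mod_self, e1 h5] at hij
      omega
    · rw [e1 h5, e2 h6] at hij
      omega

theorem fac_le_one {K : ℕ} (a : Fin K → ℕ) (p : ℕ) (hp : p.Prime) (hinj : ∀ i j, i ≠ j → ¬ a i ≡ a j [MOD p]) : fac a p ≤ 1 := by
  have hp2 : (2 : ℝ) ≤ p := by exact_mod_cast hp.two_le
  have hp0 : (0 : ℝ) < p := by linarith
  have hx1 : 1 / (p : ℝ) ≤ 1 / 2 := one_div_le_one_div_of_le (by norm_num) hp2
  have hx0 : 0 < 1 / (p : ℝ) := by positivity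
  unfold fac
  rw [nup_eq a p hp.one_lt.le hinj, div_le_one (by
    apply pow_pos
    linarith)]
  have := one_add_mul_le_pow (show -2 ≤ -(1 / (p : ℝ)) by linarith) K
  have e : 1 + (K : ℝ) * -(1 / (p : ℝ)) = 1 - K / p := by ring
  rw [e] at this
  have e2 : 1 + -(1 / (p : ℝ)) = 1 - 1 / p := by ring
  rwa [e2] at this

theorem one_sub_sum_le (s : Finset ℕ) (f g : ℕ → ℝ) (hf0 : ∀ p ∈ s, 0 ≤ f p) (hf : ∀ p ∈ s, 1 - g p ≤ f p) (hg0 : ∀ p ∈ s, 0 ≤ g p)
    (hg1 : ∀ p ∈ s, g p ≤ 1) :
    1 - ∑ p ∈ s, g p ≤ ∏ p ∈ s, f p := by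
  have key : 1 - ∑ p ∈ s, g p ≤ ∏ p ∈ s, (1 - g p) := by
    clear hf0 hf
    induction s using Finset.induction_on with
    | empty => simp
    | insert q s hq ih =>
      rw [sum_insert hq, prod_insert hq]
      have h1 := ih (fun p hp => hg0 p (mem_insert_of_mem hp)) (fun p hp => hg1 p (mem_insert_of_mem hp))
      have h2 := hg0 q (mem_insert_self q s)
      have h3 := hg1 q (mem_insert_self q s)
      have h4 : 0 ≤ ∑ p ∈ s, g p := sum_nonneg fun p hp => hg0 p (mem_insert_of_mem hp)
      nlinarith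
  refine key.trans ?_
  apply prod_le_prod
  · intro p hp
    have := hg1 p hp
    linarith
  · exact hf

theorem card_pf (n : ℕ) (hn : 1 ≤ n) : (n.primeFactors.card : ℝ) ≤ 2 * Real.log n := by
  have h1 : 2 ^ n.primeFactors.card ≤ n := by
    have h2 : 2 ^ n.primeFactors.card ≤ ∏ p ∈ n.primeFactors, p := by
      apply Finset.pow_card_le_prod
      intro p hp
      exact (Nat.prime_of_mem_primeFactors hp).two_le
    exact h2.trans (Nat.le_of_dvd hn (Nat.prod_primeFactors_dvd n))
  have h2 : (2 : ℝ) ^ n.primeFactors.card ≤ n := by exact_mod_cast h1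
  have h3 := Real.log_le_log (by positivity) h2
  rw [Real.log_pow] at h3
  have h4 := Real.log_two_gt_d9
  have h5 : (0 : ℝ) ≤ n.primeFactors.card := by positivity
  nlinarith

/-- the tail of the product -/
theorem tail_bounds {K : ℕ} (hK : 1 ≤ K) (a : Fin K → ℕ) (D : ℕ) (hD1 : 1 ≤ D) (haD : ∀ i, a i ≤ D) (hinj : Function.Injective a) (z y : ℕ)
    (hz : 2 * K ≤ z) (hzy : z ≤ y) :
    (1 - (K : ℝ) ^ 2 / z) * Sz a z ≤ Sz a y ∧ Sz a y ≤ Real.exp (4 * K ^ 3 * Real.log D / z) * Sz a z := by
  have hzr : (2 : ℝ) ≤ z := by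
    have : 2 ≤ z := by omega
    exact_mod_cast this
  have hz0 : (0 : ℝ) < z := by linarith
  have hsub : pz z ⊆ pz y := by
    intro p hp
    rw [mem_pz] at hp ⊢
    exact ⟨hp.1.trans hzy, hp.2⟩
  have hsplit : Sz a y = (∏ p ∈ pz y \ pz z, fac a p) * Sz a z := by
    unfold Sz
    exact (prod_sdiff hsub).symm
  have hmem : ∀ p ∈ pz y \ pz z, p.Prime ∧ z < p ∧ p ≤ y := by
    intro p hp
    rw [mem_sdiff, mem_pz, mem_pz] at hp
    refine ⟨hp.1.2, ?_, hp.1.1⟩
    by_contra h
    push Not at h
    exact hp.2 ⟨h, hp.1.2⟩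
  rw [hsplit]
  have hS := Sz_nonneg a z
  constructor
  · apply mul_le_mul_of_nonneg_right _ hS
    have h1 := one_sub_sum_le (pz y \ pz z) (fac a) (fun p => (K : ℝ) ^ 2 / (p : ℝ) ^ 2)
      (fun p hp => fac_nonneg a p (hmem p hp).1) (fun p hp => fac_low a p (hmem p hp).1 (by have := (hmem p hp).2.1; omega))
      (fun p _ => by positivity) (fun p hp => by
        have h2 : 2 * K ≤ p := by have := (hmem p hp).2.1; omega
        have h3 : (K : ℝ) ≤ p := by exact_mod_cast (by omega : K ≤ p)
        have h4 : (0 : ℝ) < p := by exact_mod_cast (hmem p hp).1.pos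
        rw [div_le_one (by positivity)]
        gcongr)
    refine le_trans ?_ h1
    have h2 : ∑ p ∈ pz y \ pz z, (K : ℝ) ^ 2 / (p : ℝ) ^ 2 ≤ (K : ℝ) ^ 2 / z := by
      calc ∑ p ∈ pz y \ pz z, (K : ℝ) ^ 2 / (p : ℝ) ^ 2 ≤ ∑ p ∈ Ioc z y, (K : ℝ) ^ 2 / (p : ℝ) ^ 2 := by
            apply sum_le_sum_of_subset_of_nonneg
            · intro p hp
              rw [mem_Ioc]
              exact (hmem p hp).2
            · intro p _ _
              positivity
        _ = (K : ℝ) ^ 2 * ∑ p ∈ Ioc z y, ((p : ℝ) ^ 2)⁻¹ := by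
            rw [mul_sum]
            apply sum_congr rfl
            intro p _
            rw [div_eq_mul_inv]
        _ ≤ (K : ℝ) ^ 2 * ((z : ℝ)⁻¹ - (y : ℝ)⁻¹) := by
            apply mul_le_mul_of_nonneg_left _ (by positivity)
            exact sum_Ioc_inv_sq_le_sub (by omega) hzy
        _ ≤ (K : ℝ) ^ 2 / z := by
            rw [div_eq_mul_inv]
            apply mul_le_mul_of_nonneg_left _ (by positivity)
            have : 0 ≤ (y : ℝ)⁻¹ := by positivity
            linarith
    linarith
  · apply mul_le_mul_of_nonneg_right _ hS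
    -- the exceptional primes
    set W : Finset ℕ := (univ : Finset (Fin K × Fin K)).biUnion (fun x => if x.1 = x.2 then ∅ else (max (a x.1) (a x.2) - min (a x.1) (a x.2)).primeFactors) with hW
    have hWc : (W.card : ℝ) ≤ (K : ℝ) ^ 2 * (2 * Real.log D) := by
      have hD0 : (1 : ℝ) ≤ D := by exact_mod_cast hD1
      have hlogD : 0 ≤ Real.log D := Real.log_nonneg hD0
      have h1 : (W.card : ℝ) ≤ ∑ x : Fin K × Fin K, ((if x.1 = x.2 then (∅ : Finset ℕ) else (max (a x.1) (a x.2) - min (a x.1) (a x.2)).primeFactors).card : ℝ) := by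
        exact_mod_cast card_biUnion_le
      refine h1.trans ?_
      have h2 : ∀ x ∈ (univ : Finset (Fin K × Fin K)), ((if x.1 = x.2 then (∅ : Finset ℕ) else (max (a x.1) (a x.2) - min (a x.1) (a x.2)).primeFactors).card : ℝ) ≤ 2 * Real.log D := by
        intro x _
        split_ifs with h
        · simp only [card_empty, Nat.cast_zero]
          linarith
        · have h3 : a x.1 ≠ a x.2 := fun h4 => h (hinj h4)
          have h4 := haD x.1
          have h5 := haD x.2
          have h6 : 1 ≤ max (a x.1) (a x.2) - min (a x.1) (a x.2) := by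
            rcases le_total (a x.1) (a x.2) with h7 | h7
            · rw [max_eq_right h7, min_eq_left h7]; omega
            · rw [max_eq_left h7, min_eq_right h7]; omega
          have h7 : max (a x.1) (a x.2) - min (a x.1) (a x.2) ≤ D := by
            have := max_le h4 h5
            omega
          refine (card_pf _ h6).trans ?_
          have h8 : Real.log ((max (a x.1) (a x.2) - min (a x.1) (a x.2) : ℕ) : ℝ) ≤ Real.log D := by
            apply Real.log_le_log (by exact_mod_cast h6)
            exact_mod_cast h7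
          linarith
      refine (sum_le_sum h2).trans (le_of_eq ?_)
      rw [sum_const, card_univ, Fintype.card_prod, Fintype.card_fin, nsmul_eq_mul]
      push_cast
      ring
    have hfac : ∀ p ∈ pz y \ pz z, fac a p ≤ if p ∈ W then Real.exp (2 * K / z) else 1 := by
      intro p hp
      obtain ⟨hpp, hpz, _⟩ := hmem p hp
      have hp0 : (0 : ℝ) < p := by exact_mod_cast hpp.pos
      split_ifs with hpW
      · refine (fac_up a p hpp (by omega)).trans ?_
        have h1 : 2 * (K : ℝ) / p ≤ 2 * K / z := by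
          have h2 : (z : ℝ) ≤ p := by exact_mod_cast hpz.le
          gcongr
        have h2 := Real.add_one_le_exp (2 * (K : ℝ) / z)
        linarith
      · apply fac_le_one a p hpp
        intro i j hij hmod
        apply hpW
        rw [hW, mem_biUnion]
        refine ⟨(i, j), mem_univ _, ?_⟩
        rw [if_neg (by simpa using hij)]
        rw [Nat.mem_primeFactors]
        have h3 : a i ≠ a j := fun h4 => hij (hinj h4)
        refine ⟨hpp, ?_, ?_⟩
        · rcases le_total (a i) (a j) with h7 | h7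
          · simp only [max_eq_right h7, min_eq_left h7]
            exact (Nat.modEq_iff_dvd' h7).1 hmod
          · simp only [max_eq_left h7, min_eq_right h7]
            exact (Nat.modEq_iff_dvd' h7).1 hmod.symm
        · simp only
          rcases le_total (a i) (a j) with h7 | h7
          · rw [max_eq_right h7, min_eq_left h7]; omega
          · rw [max_eq_left h7, min_eq_right h7]; omega
    calc ∏ p ∈ pz y \ pz z, fac a p ≤ ∏ p ∈ pz y \ pz z, (if p ∈ W then Real.exp (2 * K / z) else 1) :=
          prod_le_prod (fun p hp => fac_nonneg a p (hmem p hp).1) hfac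
      _ = Real.exp (2 * K / z) ^ ((pz y \ pz z).filter (fun p => p ∈ W)).card := by
          rw [prod_ite, prod_const, prod_const_one, mul_one]
      _ = Real.exp ((((pz y \ pz z).filter (fun p => p ∈ W)).card : ℝ) * (2 * K / z)) := (Real.exp_nat_mul _ _).symm
      _ ≤ Real.exp ((K : ℝ) ^ 2 * (2 * Real.log D) * (2 * K / z)) := by
          apply Real.exp_le_exp.2
          apply mul_le_mul_of_nonneg_right _ (by positivity)
          refine le_trans ?_ hWc
          have : ((pz y \ pz z).filter (fun p => p ∈ W)).card ≤ W.card := by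
            apply card_le_card
            intro p hp
            exact (mem_filter.1 hp).2
          exact_mod_cast this
      _ = Real.exp (4 * K ^ 3 * Real.log D / z) := by
          congr 1; ring

/-- the limit of the partial products -/
theorem Sz_tendsto {K : ℕ} (a : Fin K → ℕ) (hinj : Function.Injective a) : ∃ S : ℝ, Tendsto (Sz a) atTop (𝓝 S) := by
  obtain ⟨D, hD⟩ : ∃ D : ℕ, ∀ i, a i ≤ D := by
    refine ⟨∑ i, a i, fun i => single_le_sum (f := a) (fun _ _ => Nat.zero_le _) (mem_univ i)⟩
  have hanti : Antitone (fun j : ℕ => Sz a (j + D)) := by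
    apply antitone_nat_of_succ_le
    intro j
    have e : j + 1 + D = (j + D) + 1 := by ring
    rw [e]
    unfold Sz
    by_cases hp : (j + D + 1).Prime
    · have h1 : pz (j + D + 1) = insert (j + D + 1) (pz (j + D)) := by
        ext p
        rw [mem_insert, mem_pz, mem_pz]
        constructor
        · rintro ⟨h2, h3⟩
          rcases Nat.lt_or_ge p (j + D + 1) with h4 | h4
          · exact Or.inr ⟨by omega, h3⟩
          · exact Or.inl (by omega)
        · rintro (h2 | ⟨h2, h3⟩)
          · rw [h2]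
            exact ⟨le_rfl, hp⟩
          · exact ⟨by omega, h3⟩
      rw [h1, prod_insert (by
        rw [mem_pz]
        rintro ⟨h2, _⟩
        omega)]
      have h2 : fac a (j + D + 1) ≤ 1 := by
        apply fac_le_one a _ hp
        intro i i' hii hmod
        apply hii
        apply hinj
        have h3 := hD i
        have h4 := hD i'
        unfold Nat.ModEq at hmod
        rwa [Nat.mod_eq_of_lt (by omega), Nat.mod_eq_of_lt (by omega)] at hmod
      have h3 := Sz_nonneg a (j + D)
      unfold Sz at h3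
      have h4 : fac a (j + D + 1) * ∏ p ∈ pz (j + D), ((1 - (nup a p : ℝ) / p) / (1 - 1 / (p : ℝ)) ^ K) ≤
          1 * ∏ p ∈ pz (j + D), ((1 - (nup a p : ℝ) / p) / (1 - 1 / (p : ℝ)) ^ K) := mul_le_mul_of_nonneg_right h2 h3
      rw [one_mul] at h4
      exact h4
    · have h1 : pz (j + D + 1) = pz (j + D) := by
        ext p
        rw [mem_pz, mem_pz]
        constructor
        · rintro ⟨h2, h3⟩
          refine ⟨?_, h3⟩
          by_contra h4
          have : p = j + D + 1 := by omega
          rw [this] at h3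
          exact hp h3
        · rintro ⟨h2, h3⟩
          exact ⟨by omega, h3⟩
      rw [h1]
  have hbdd : BddBelow (Set.range (fun j : ℕ => Sz a (j + D))) := ⟨0, by
    rintro _ ⟨j, rfl⟩
    exact Sz_nonneg a _⟩
  refine ⟨⨅ j, Sz a (j + D), ?_⟩
  exact (Filter.tendsto_add_atTop_iff_nat D).1 (tendsto_atTop_ciInf hanti hbdd)

end

end Run7.h402.PW
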