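import Mathlib
import Pool.Agent.Run7.h402.PW.W6

/-!
# The asymptotic formula for almost all constellations at good scales
-/

set_option autoImplicit false

open Finset
open Filter (Tendsto atTop)
open scoped Topology

namespace Run7.h402.PW

open Run7.h402.PT
open Pool.Agent.H373R2.T7

noncomputable section

/-- tuples with equal entries are rare -/
theorem card_noninj (k X : ℕ) (hX : 1 ≤ X) :
    (((Fintype.piFinset (fun _ : Fin k => Icc 1 X)).filter (fun m => ¬ Function.Injective m)).card : ℝ) * X ≤ (k : ℝ) ^ 2 * (X : ℝ) ^ k := by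
  classical
  have h1 : (Fintype.piFinset (fun _ : Fin k => Icc 1 X)).filter (fun m => ¬ Function.Injective m) ⊆
      (univ : Finset (Fin k × Fin k)).biUnion (fun x => if x.1 = x.2 then ∅ else
        (Fintype.piFinset (fun _ : Fin k => Icc 1 X)).filter (fun m => m x.1 = m x.2)) := by
    intro m hm
    rw [mem_filter] at hm
    obtain ⟨hm1, hm2⟩ := hm
    unfold Function.Injective at hm2
    push Not at hm2
    obtain ⟨i, j, hij, hne⟩ := hm2
    rw [mem_biUnion]
    refine ⟨(i, j), mem_univ _, ?_⟩
    rw [if_neg (by simpa using hne), mem_filter]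
    exact ⟨hm1, hij⟩
  have h2 : ∀ x ∈ (univ : Finset (Fin k × Fin k)), (((if x.1 = x.2 then ∅ else
        (Fintype.piFinset (fun _ : Fin k => Icc 1 X)).filter (fun m => m x.1 = m x.2)) : Finset (Fin k → ℕ)).card : ℝ) * X ≤ (X : ℝ) ^ k := by
    rintro ⟨i, j⟩ _
    simp only
    split_ifs with hij
    · simp
    · have h3 : (((Fintype.piFinset (fun _ : Fin k => Icc 1 X)).filter (fun m => m i = m j)) ×ˢ (Icc 1 X)).card ≤
          (Fintype.piFinset (fun _ : Fin k => Icc 1 X)).card := by
        apply card_le_card_of_injOn (fun x : (Fin k → ℕ) × ℕ => Function.update x.1 j x.2)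
        · rintro ⟨m, t⟩ hx
          rw [Finset.mem_coe, mem_product, mem_filter] at hx
          rw [Finset.mem_coe, Fintype.mem_piFinset]
          intro i'
          by_cases h4 : i' = j
          · subst h4
            simp only [Function.update_self]
            exact hx.2
          · simp only [Function.update_of_ne h4]
            exact (Fintype.mem_piFinset.1 hx.1.1) i'
        · rintro ⟨m, t⟩ hx ⟨m', t'⟩ hx' h
          rw [Finset.mem_coe, mem_product, mem_filter] at hx hx'
          simp only at h hx hx'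
          have ht : t = t' := by
            have := congrFun h j
            simpa using this
          have hm : ∀ i', i' ≠ j → m i' = m' i' := by
            intro i' hi'
            have := congrFun h i'
            simpa [Function.update_of_ne hi'] using this
          have hmm : m = m' := by
            funext i'
            by_cases h4 : i' = j
            · rw [h4, ← hx.1.2, ← hx'.1.2]
              exact hm i hij
            · exact hm i' h4
          rw [ht, hmm]
      rw [card_product, Nat.card_Icc, Nat.add_sub_cancel, Fintype.card_piFinset] at h3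
      have h4 : ((((Fintype.piFinset (fun _ : Fin k => Icc 1 X)).filter (fun m => m i = m j)).card * X : ℕ) : ℝ) ≤ ((∏ _i : Fin k, (Icc 1 X).card : ℕ) : ℝ) := by
        exact_mod_cast h3
      push_cast at h4
      simpa using h4
  have h3 : (((Fintype.piFinset (fun _ : Fin k => Icc 1 X)).filter (fun m => ¬ Function.Injective m)).card : ℝ) ≤
      ∑ x : Fin k × Fin k, (((if x.1 = x.2 then ∅ else
        (Fintype.piFinset (fun _ : Fin k => Icc 1 X)).filter (fun m => m x.1 = m x.2)) : Finset (Fin k → ℕ)).card : ℝ) := by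
    exact_mod_cast (card_le_card h1).trans card_biUnion_le
  have hX0 : (0 : ℝ) ≤ X := by positivity
  calc _ ≤ (∑ x : Fin k × Fin k, (((if x.1 = x.2 then ∅ else
        (Fintype.piFinset (fun _ : Fin k => Icc 1 X)).filter (fun m => m x.1 = m x.2)) : Finset (Fin k → ℕ)).card : ℝ)) * X := by
        gcongr
    _ = ∑ x : Fin k × Fin k, (((if x.1 = x.2 then ∅ else
        (Fintype.piFinset (fun _ : Fin k => Icc 1 X)).filter (fun m => m x.1 = m x.2)) : Finset (Fin k → ℕ)).card : ℝ) * X := sum_mul _ _ _
    _ ≤ ∑ _x : Fin k × Fin k, (X : ℝ) ^ k := sum_le_sum h2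
    _ = (k : ℝ) ^ 2 * (X : ℝ) ^ k := by
        rw [sum_const, card_univ, Fintype.card_prod, Fintype.card_fin, nsmul_eq_mul]
        push_cast
        ring

/-- the number of prime constellations -/
def cnt {K : ℕ} (a : Fin K → ℕ) (y : ℕ) : ℕ := ((Icc 1 y).filter (fun n => ∀ i, (n + a i).Prime)).card

/-- the weighted number -/
def wcnt {K : ℕ} (a : Fin K → ℕ) (y : ℕ) : ℝ := ∑ n ∈ Icc 1 y, ∏ i, Fp (n + a i)

theorem prod_Fp {K : ℕ} (a : Fin K → ℕ) (n : ℕ) : ∏ i, Fp (n + a i) = if (∀ i, (n + a i).Prime) then ∏ i, Real.log ((n + a i : ℕ) : ℝ) else 0 := by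
  split_ifs with h
  · apply prod_congr rfl
    intro i _
    unfold Fp
    rw [if_pos (h i)]
  · push Not at h
    obtain ⟨i, hi⟩ := h
    apply prod_eq_zero (mem_univ i)
    unfold Fp
    rw [if_neg hi]

/-- from weights to counts -/
theorem unweight {K : ℕ} (a : Fin K → ℕ) (X : ℕ) (hX : 1 ≤ X) (haX : ∀ i, a i ≤ X) (l : ℝ) (hl : 0 ≤ l)
    (hlX : l ≤ Real.log X) (y : ℕ) (hy : y ≤ X) :
    wcnt a y ≤ (Real.log X + 1) ^ K * cnt a y ∧
    (Real.log X - l) ^ K * cnt a y ≤ wcnt a y + Real.log X ^ K * (X * Real.exp (-l)) := by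
  have hXr : (1 : ℝ) ≤ X := by exact_mod_cast hX
  have hX0 : (0 : ℝ) < X := by linarith
  have hw : wcnt a y = ∑ n ∈ (Icc 1 y).filter (fun n => ∀ i, (n + a i).Prime), ∏ i, Real.log ((n + a i : ℕ) : ℝ) := by
    unfold wcnt
    rw [sum_congr rfl fun n _ => prod_Fp a n, sum_filter]
  have hlogX0 : 0 ≤ Real.log X := Real.log_nonneg hXr
  constructor
  · rw [hw]
    unfold cnt
    rw [mul_comm, ← nsmul_eq_mul, ← sum_const]
    apply sum_le_sum
    intro n hn
    rw [mem_filter, mem_Icc] at hn
    have h1 : ∏ i, Real.log ((n + a i : ℕ) : ℝ) ≤ ∏ _i : Fin K, (Real.log X + 1) := by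
      apply prod_le_prod
      · intro i _
        exact Real.log_natCast_nonneg _
      · intro i _
        have h2 : ((n + a i : ℕ) : ℝ) ≤ 2 * X := by
          have := haX i
          exact_mod_cast (by omega : n + a i ≤ 2 * X)
        have h3 : (0 : ℝ) < ((n + a i : ℕ) : ℝ) := by exact_mod_cast (by omega : 0 < n + a i)
        have h4 := Real.log_le_log h3 h2
        rw [Real.log_mul (by norm_num) hX0.ne'] at h4
        have h5 : Real.log 2 ≤ 1 := by
          have := Real.log_two_lt_d9
          linarith
        linarith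
    rwa [prod_const, card_univ, Fintype.card_fin] at h1
  · set N0 : ℕ := ⌊X * Real.exp (-l)⌋₊ with hN0
    have hN0' : (N0 : ℝ) ≤ X * Real.exp (-l) := Nat.floor_le (by positivity)
    have hc : (cnt a y : ℝ) ≤ (((Icc 1 y).filter (fun n => N0 < n ∧ ∀ i, (n + a i).Prime)).card : ℝ) + X * Real.exp (-l) := by
      have h1 : (Icc 1 y).filter (fun n => ∀ i, (n + a i).Prime) ⊆
          (Icc 1 y).filter (fun n => N0 < n ∧ ∀ i, (n + a i).Prime) ∪ Icc 1 N0 := by
        intro n hn
        rw [mem_filter, mem_Icc] at hn
        rw [mem_union, mem_filter, mem_Icc, mem_Icc]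
        by_cases h2 : N0 < n
        · left
          exact ⟨hn.1, h2, hn.2⟩
        · right
          exact ⟨hn.1.1, by omega⟩
      have h2 := (card_le_card h1).trans (card_union_le _ _)
      rw [Nat.card_Icc, Nat.add_sub_cancel] at h2
      have h3 : (cnt a y : ℝ) ≤ (((Icc 1 y).filter (fun n => N0 < n ∧ ∀ i, (n + a i).Prime)).card : ℝ) + N0 := by
        unfold cnt
        exact_mod_cast h2
      linarith
    have hlow : (Real.log X - l) ^ K * (((Icc 1 y).filter (fun n => N0 < n ∧ ∀ i, (n + a i).Prime)).card : ℝ) ≤ wcnt a y := by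
      rw [hw, mul_comm, ← nsmul_eq_mul, ← sum_const]
      refine le_trans (sum_le_sum (g := fun n => ∏ i, Real.log ((n + a i : ℕ) : ℝ)) ?_) (sum_le_sum_of_subset_of_nonneg ?_ ?_)
      · intro n hn
        rw [mem_filter, mem_Icc] at hn
        have h1 : ∏ _i : Fin K, (Real.log X - l) ≤ ∏ i, Real.log ((n + a i : ℕ) : ℝ) := by
          apply prod_le_prod
          · intro i _
            linarith
          · intro i _
            have h2 : X * Real.exp (-l) < n := (Nat.floor_lt (by positivity)).1 hn.2.1
            have h3 : (n : ℝ) ≤ ((n + a i : ℕ) : ℝ) := by exact_mod_cast Nat.le_add_right _ _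
            have h4 : X * Real.exp (-l) ≤ ((n + a i : ℕ) : ℝ) := by linarith
            have h5 := Real.log_le_log (by positivity) h4
            rw [Real.log_mul hX0.ne' (Real.exp_pos _).ne', Real.log_exp] at h5
            linarith
        rwa [prod_const, card_univ, Fintype.card_fin] at h1
      · intro n hn
        rw [mem_filter] at hn ⊢
        exact ⟨hn.1, hn.2.2⟩
      · intro n _ _
        exact prod_nonneg fun i _ => Real.log_natCast_nonneg _
    have h0 : 0 ≤ Real.log X - l := by linarith
    calc (Real.log X - l) ^ K * cnt a y ≤ (Real.log X - l) ^ K * ((((Icc 1 y).filter (fun n => N0 < n ∧ ∀ i, (n + a i).Prime)).card : ℝ) + X * Real.exp (-l)) := by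
          gcongr
      _ = (Real.log X - l) ^ K * (((Icc 1 y).filter (fun n => N0 < n ∧ ∀ i, (n + a i).Prime)).card : ℝ) + (Real.log X - l) ^ K * (X * Real.exp (-l)) := by ring
      _ ≤ wcnt a y + Real.log X ^ K * (X * Real.exp (-l)) := by
          gcongr
          linarith

end

end Run7.h402.PW
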