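import Mathlib
import Pool.Agent.Run7.h402.PW.W7

/-!
# From the averages to the counting functions
-/

set_option autoImplicit false

open Finset
open Filter (Tendsto atTop)
open scoped Topology

namespace Run7.h402.PW

open Run7.h402.PT
open Pool.Agent.H373R2.T7
open Pool.Agent.N475.SP (dom)

noncomputable section

theorem expc (c a b : ℝ) (h : c ≤ a - b + 1) : c * Real.exp (-a) ≤ Real.exp (-b) := by
  have e : Real.exp (-b) = Real.exp (a - b) * Real.exp (-a) := by
    rw [← Real.exp_add]; congr 1; ring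
  rw [e]
  have := Real.add_one_le_exp (a - b)
  apply mul_le_mul_of_nonneg_right _ (Real.exp_pos _).le
  linarith

/-- admissibility -/
def Adm {K : ℕ} (a : Fin K → ℕ) : Prop := ∀ p : ℕ, p.Prime → ∃ r, r < p ∧ ∀ i, a i % p ≠ r

theorem wcnt_mono {K : ℕ} (a : Fin K → ℕ) (x y : ℕ) (h : x ≤ y) : wcnt a x ≤ wcnt a y := by
  unfold wcnt
  apply sum_le_sum_of_subset_of_nonneg
  · exact Icc_subset_Icc_right h
  · intro n _ _
    exact prod_nonneg fun i _ => Fp_nonneg _

/-- the bounds for the partial product and its limit -/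
theorem S_bounds : ∃ l0 : ℝ, ∀ l : ℝ, l0 ≤ l → ∀ X : ℕ, 1 ≤ X → Real.log X ≤ l ^ 41 → ∀ K : ℕ, 1 ≤ K → (K : ℝ) ≤ l ^ (24 / 25 : ℝ) →
    ∀ a : Fin K → ℕ, (∀ i, a i ≤ X) → Function.Injective a → Adm a → ∀ S : ℝ, Tendsto (Sz a) atTop (𝓝 S) →
      Real.exp (-(l / 1000000)) ≤ Sz a (zl l) ∧ Sz a (zl l) ≤ Real.exp (l / 1000000) ∧
      |S - Sz a (zl l)| ≤ Sz a (zl l) * Real.exp (-(l / 2)) := by
  obtain ⟨C, hC1, hV⟩ := Vz_scale
  obtain ⟨l1, h1⟩ := grow2 (16 * C) (1 / 1000000) (by linarith) (by norm_num)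
  obtain ⟨l2, h2⟩ := dom 16 (1 / 2) 44 (by norm_num)
  refine ⟨max (max l1 l2) 100, fun l hl X hX hlX K hK hKl a haX hinj hadm S hS => ?_⟩
  have hl1 : l1 ≤ l := ((le_max_left _ _).trans (le_max_left _ _)).trans hl
  have hl2 : l2 ≤ l := ((le_max_right _ _).trans (le_max_left _ _)).trans hl
  have hl100 : 100 ≤ l := (le_max_right _ _).trans hl
  have hl0 : 0 < l := by linarith
  have hlone : 1 ≤ l := by linarith
  obtain ⟨g1, g2⟩ := h1 l hl1 K hKl
  have hD := h2 l hl2
  have hVl := hV l (by linarith)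
  have hVp := Vz_pos (zl l)
  have hp : l ^ 2 ≤ l ^ 50 := pow_le_pow_right₀ hlone (by norm_num)
  set s := Sz a (zl l) with hs
  have hup : s ≤ Real.exp (l / 1000000) := by
    rw [hs, Sz_eq]
    have h3 : ∏ p ∈ pz (zl l), (1 - (nup a p : ℝ) / p) ≤ 1 := by
      apply prod_le_one
      · intro p hp
        have hpp := (mem_pz.1 hp).2
        have h4 : (0 : ℝ) < p := by exact_mod_cast hpp.pos
        have h5 : (nup a p : ℝ) ≤ p := by
          have : nup a p ≤ p := by
            unfold nup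
            exact (card_filter_le _ _).trans (by rw [card_range])
          exact_mod_cast this
        have h6 : (nup a p : ℝ) / p ≤ 1 := by
          rw [div_le_one h4]; exact h5
        linarith
      · intro p _
        have : 0 ≤ (nup a p : ℝ) / p := by positivity
        linarith
    calc (Vz (zl l))⁻¹ ^ K * ∏ p ∈ pz (zl l), (1 - (nup a p : ℝ) / p) ≤ (Vz (zl l))⁻¹ ^ K * 1 := by gcongr
      _ ≤ (16 * C * l ^ 50) ^ K := by
          rw [mul_one]
          have : (Vz (zl l))⁻¹ ≤ 16 * C * l ^ 50 := by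
            calc (Vz (zl l))⁻¹ ≤ C * l ^ 2 := hVl
              _ ≤ 16 * C * l ^ 50 := by
                  gcongr
                  linarith
          gcongr
      _ ≤ Real.exp (1 / 1000000 * l) := g1
      _ = _ := by congr 1; ring
  have hlow : Real.exp (-(l / 1000000)) ≤ s := by
    have h3 := sing_low a hadm (zl l)
    rw [hs, Sz_eq]
    have h4 : (Vz (zl l))⁻¹ ^ K * ((1 / 4 : ℝ) ^ (2 * K) * Vz (zl l) ^ (2 * K)) = (Vz (zl l) / 16) ^ K := by
      rw [pow_mul, pow_mul, ← mul_pow, ← mul_pow]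
      congr 1
      field_simp
      ring
    have h5 : (Vz (zl l) / 16) ^ K ≤ (Vz (zl l))⁻¹ ^ K * ∏ p ∈ pz (zl l), (1 - (nup a p : ℝ) / p) := by
      rw [← h4]
      gcongr
    refine le_trans ?_ h5
    have h6 : (16 * C * l ^ 50)⁻¹ ≤ Vz (zl l) / 16 := by
      have h7 : (Vz (zl l) / 16)⁻¹ ≤ 16 * C * l ^ 50 := by
        rw [inv_div, div_eq_mul_inv]
        calc 16 * (Vz (zl l))⁻¹ ≤ 16 * (C * l ^ 2) := by gcongr
          _ ≤ 16 * (C * l ^ 50) := by gcongr
          _ = _ := by ring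
      exact inv_le_of_inv_le₀ (by positivity) h7
    calc Real.exp (-(l / 1000000)) = (Real.exp (1 / 1000000 * l))⁻¹ := by
          rw [← Real.exp_neg]; congr 1; ring
      _ ≤ ((16 * C * l ^ 50) ^ K)⁻¹ := inv_anti₀ (by positivity) g1
      _ = ((16 * C * l ^ 50)⁻¹) ^ K := (inv_pow _ _).symm
      _ ≤ (Vz (zl l) / 16) ^ K := by gcongr
  refine ⟨hlow, hup, ?_⟩
  have hs0 : 0 ≤ s := Sz_nonneg _ _
  have hzexp : Real.exp l ≤ 2 * (zl l : ℝ) := by
    have h3 := zl_gt l
    have h4 : (1 : ℝ) ≤ zl l := by exact_mod_cast zl_one l hl0.le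
    linarith
  have hz0 : (0 : ℝ) < zl l := by
    have := Real.exp_pos l
    linarith
  have h2K : 2 * K ≤ zl l := by
    have h3 := Real.add_one_le_exp l
    have h4 : (2 * K : ℝ) ≤ zl l := by
      have h5 := Real.quadratic_le_exp_of_nonneg hl0.le
      nlinarith
    exact_mod_cast h4
  have hzinv : 1 / (zl l : ℝ) ≤ 2 * Real.exp (-l) := by
    rw [div_le_iff₀ hz0, Real.exp_neg]
    have := Real.exp_pos l
    rw [mul_assoc, inv_mul_eq_div, ← mul_div_assoc, le_div_iff₀ this]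
    linarith
  have hD2 : 16 * l ^ 44 * Real.exp (-l) ≤ Real.exp (-(l / 2)) := by
    calc 16 * l ^ 44 * Real.exp (-l) ≤ Real.exp (1 / 2 * l) * Real.exp (-l) := by gcongr
      _ = Real.exp (-(l / 2)) := by rw [← Real.exp_add]; congr 1; ring
  have hKl3 : (K : ℝ) ^ 3 * Real.log X ≤ l ^ 44 := by
    have h3 : 0 ≤ Real.log X := Real.log_nonneg (by exact_mod_cast hX)
    calc (K : ℝ) ^ 3 * Real.log X ≤ l ^ 3 * l ^ 41 := by gcongr
      _ = l ^ 44 := by ring
  have hx1 : 4 * (K : ℝ) ^ 3 * Real.log X / (zl l : ℝ) ≤ Real.exp (-(l / 2)) / 2 := by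
    calc 4 * (K : ℝ) ^ 3 * Real.log X / (zl l : ℝ) = (4 * ((K : ℝ) ^ 3 * Real.log X)) * (1 / (zl l : ℝ)) := by ring
      _ ≤ (4 * l ^ 44) * (2 * Real.exp (-l)) := by gcongr
      _ = (16 * l ^ 44 * Real.exp (-l)) / 2 := by ring
      _ ≤ _ := by gcongr
  have hx2 : (K : ℝ) ^ 2 / (zl l : ℝ) ≤ Real.exp (-(l / 2)) := by
    have h3 : l ^ 2 ≤ l ^ 44 := pow_le_pow_right₀ hlone (by norm_num)
    calc (K : ℝ) ^ 2 / (zl l : ℝ) = (K : ℝ) ^ 2 * (1 / (zl l : ℝ)) := by ring
      _ ≤ l ^ 2 * (2 * Real.exp (-l)) := by gcongr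
      _ ≤ l ^ 44 * (16 * Real.exp (-l)) := by
          gcongr
          norm_num
      _ = 16 * l ^ 44 * Real.exp (-l) := by ring
      _ ≤ _ := hD2
  have hlim1 : (1 - (K : ℝ) ^ 2 / (zl l : ℝ)) * s ≤ S := by
    apply ge_of_tendsto hS
    filter_upwards [Filter.eventually_ge_atTop (zl l)] with y hy
    exact (tail_bounds hK a X hX haX hinj (zl l) y h2K hy).1
  have hlim2 : S ≤ Real.exp (4 * (K : ℝ) ^ 3 * Real.log X / (zl l : ℝ)) * s := by
    apply le_of_tendsto hS
    filter_upwards [Filter.eventually_ge_atTop (zl l)] with y hy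
    exact (tail_bounds hK a X hX haX hinj (zl l) y h2K hy).2
  have hE1 : Real.exp (-(l / 2)) ≤ 1 := by
    rw [Real.exp_le_one_iff]; linarith
  have hx0 : 0 ≤ 4 * (K : ℝ) ^ 3 * Real.log X / (zl l : ℝ) := by
    have h3 : 0 ≤ Real.log X := Real.log_nonneg (by exact_mod_cast hX)
    positivity
  have hexp : Real.exp (4 * (K : ℝ) ^ 3 * Real.log X / (zl l : ℝ)) ≤ 1 + Real.exp (-(l / 2)) := by
    have h3 := Real.abs_exp_sub_one_le (x := 4 * (K : ℝ) ^ 3 * Real.log X / (zl l : ℝ)) (by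
      rw [abs_of_nonneg hx0]; linarith)
    rw [abs_of_nonneg hx0] at h3
    have h4 := (abs_le.1 h3).2
    linarith
  rw [abs_le]
  constructor
  · have h3 : (1 - Real.exp (-(l / 2))) * s ≤ (1 - (K : ℝ) ^ 2 / (zl l : ℝ)) * s := by
      apply mul_le_mul_of_nonneg_right _ hs0
      linarith
    linarith
  · have h3 : Real.exp (4 * (K : ℝ) ^ 3 * Real.log X / (zl l : ℝ)) * s ≤ (1 + Real.exp (-(l / 2))) * s :=
      mul_le_mul_of_nonneg_right hexp hs0
    linarith

/-- the weighted asymptotic formula from the grid -/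
theorem weighted_of : ∃ l0 : ℝ, ∀ l : ℝ, l0 ≤ l → ∀ X : ℕ, Real.exp (l ^ 23) ≤ X → Real.log X ≤ l ^ 41 → ∀ K : ℕ, 1 ≤ K →
    (K : ℝ) ≤ l ^ (24 / 25 : ℝ) → ∀ M : ℕ, Real.exp (l / 20000) ≤ M → ∀ a : Fin K → ℕ, (∀ i, a i ≤ X) → Function.Injective a →
    (∀ j : ℕ, j ≤ M → |∑ n ∈ Icc 1 (X * j / M), (∏ i, Fp (n + a i) - ∏ i, lamz (zl l) (n + a i))| ≤ X * Real.exp (-(l / 8000))) →
    Adm a → ∀ S : ℝ, Tendsto (Sz a) atTop (𝓝 S) → ∀ y : ℕ, y ≤ X →
      |wcnt a y - S * y| ≤ S * (X * Real.exp (-(l / 40000))) ∧ Real.exp (-(l / 500000)) ≤ S := by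
  obtain ⟨l1, h1⟩ := S_bounds
  obtain ⟨l2, h2⟩ := model_asymp
  refine ⟨max (max l1 l2) 100000000, fun l hl X hX hlX K hK hKl M hM a haX hinj hgrid hadm S hS y hy => ?_⟩
  have hl1 : l1 ≤ l := ((le_max_left _ _).trans (le_max_left _ _)).trans hl
  have hl2 : l2 ≤ l := ((le_max_right _ _).trans (le_max_left _ _)).trans hl
  have hl8 : 100000000 ≤ l := (le_max_right _ _).trans hl
  have hl0 : 0 < l := by linarith
  have hlone : 1 ≤ l := by linarith
  have hX0 : (0 : ℝ) < X := (Real.exp_pos _).trans_le hX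
  have hXn : 1 ≤ X := by exact_mod_cast hX0
  have hM0 : (0 : ℝ) < M := (Real.exp_pos _).trans_le hM
  have hMn : 0 < M := by exact_mod_cast hM0
  obtain ⟨hlow, hup, hSs⟩ := h1 l hl1 X hXn hlX K hK hKl a haX hinj hadm S hS
  set s := Sz a (zl l) with hs
  have hs0 : 0 < s := (Real.exp_pos _).trans_le hlow
  -- the grid
  have hg : ∀ j : ℕ, j ≤ M → |wcnt a (X * j / M) - ((X * j / M : ℕ) : ℝ) * s| ≤ 2 * (X * Real.exp (-(l / 8000))) := by
    intro j hj
    have g1 := hgrid j hj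
    have hle : X * j / M ≤ X := by
      apply Nat.div_le_of_le_mul
      rw [mul_comm M X]
      exact Nat.mul_le_mul_left X hj
    have g2 := h2 l hl2 K hK hKl a X hX (X * j / M) (by exact_mod_cast hle)
    have e : wcnt a (X * j / M) - ((X * j / M : ℕ) : ℝ) * s =
        ∑ n ∈ Icc 1 (X * j / M), (∏ i, Fp (n + a i) - ∏ i, lamz (zl l) (n + a i)) +
        (∑ n ∈ Icc 1 (X * j / M), ∏ i, lamz (zl l) (n + a i) - ((X * j / M : ℕ) : ℝ) * s) := by
      rw [sum_sub_distrib]
      unfold wcnt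
      ring
    rw [e]
    refine (abs_add_le _ _).trans ((add_le_add g1 g2).trans ?_)
    have g3 : Real.exp (-l) ≤ Real.exp (-(l / 8000)) := by
      apply Real.exp_le_exp.2; linarith
    have g4 : X * Real.exp (-l) ≤ X * Real.exp (-(l / 8000)) := by gcongr
    linarith
  -- the position of y
  set j : ℕ := y * M / X with hj
  have hjM : j ≤ M := by
    apply Nat.div_le_of_le_mul
    exact Nat.mul_le_mul_right M hy
  have hjlow : X * j / M ≤ y := by
    apply Nat.div_le_of_le_mul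
    have := Nat.mul_div_le (y * M) X
    rw [mul_comm M y]
    exact this
  set j' : ℕ := min (j + 1) M with hj'
  have hj'M : j' ≤ M := min_le_right _ _
  have hjup : y ≤ X * j' / M := by
    rw [Nat.le_div_iff_mul_le hMn, hj']
    rcases Nat.lt_or_ge j M with h3 | h3
    · rw [min_eq_left (by omega)]
      have := Nat.lt_mul_div_succ (y * M) (show 0 < X by omega)
      exact this.le
    · rw [min_eq_right (by omega)]
      exact Nat.mul_le_mul_right M hy
  have hdl : (y : ℝ) - (X / M + 1) ≤ ((X * j / M : ℕ) : ℝ) := by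
    have h3 : (y : ℝ) * M < X * (j + 1) := by
      have := Nat.lt_mul_div_succ (y * M) (show 0 < X by omega)
      exact_mod_cast this
    have h4 : (X : ℝ) * j < M * (((X * j / M : ℕ) : ℝ) + 1) := by
      have := Nat.lt_mul_div_succ (X * j) hMn
      exact_mod_cast this
    have h5 : ((y : ℝ) - (X / M + 1)) * M = y * M - X - M := by
      rw [sub_mul, add_mul, div_mul_cancel₀ _ hM0.ne', one_mul]; ring
    have h6 : ((y : ℝ) - (X / M + 1)) * M ≤ ((X * j / M : ℕ) : ℝ) * M := by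
      rw [h5]
      linarith
    exact le_of_mul_le_mul_right h6 hM0
  have hdu : ((X * j' / M : ℕ) : ℝ) ≤ (y : ℝ) + (X / M + 1) := by
    have h3 : (X : ℝ) * j ≤ y * M := by
      have := Nat.mul_div_le (y * M) X
      exact_mod_cast this
    have h4 : ((X * j' / M : ℕ) : ℝ) * M ≤ X * j' := by
      have := Nat.div_mul_le_self (X * j') M
      exact_mod_cast this
    have h5 : (j' : ℝ) ≤ j + 1 := by
      have : j' ≤ j + 1 := min_le_left _ _
      exact_mod_cast this
    have h7 : (X : ℝ) * j' ≤ X * (j + 1) := by gcongr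
    have h6 : ((X * j' / M : ℕ) : ℝ) * M ≤ ((y : ℝ) + (X / M + 1)) * M := by
      have e : ((y : ℝ) + (X / M + 1)) * M = y * M + X + M := by
        rw [add_mul, add_mul, div_mul_cancel₀ _ hM0.ne', one_mul]; ring
      rw [e]
      linarith
    exact le_of_mul_le_mul_right h6 hM0
  have hstep : (X : ℝ) / M + 1 ≤ 2 * (X * Real.exp (-(l / 20000))) := by
    have h3 : (X : ℝ) / M ≤ X * Real.exp (-(l / 20000)) := by
      rw [Real.exp_neg, div_eq_mul_inv]
      gcongr
    have h4 : 1 ≤ X * Real.exp (-(l / 20000)) := by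
      calc (1 : ℝ) = Real.exp 0 := Real.exp_zero.symm
        _ ≤ Real.exp (l ^ 23 + -(l / 20000)) := by
            apply Real.exp_le_exp.2
            have : l ≤ l ^ 23 := le_self_pow₀ hlone (by norm_num)
            linarith
        _ = Real.exp (l ^ 23) * Real.exp (-(l / 20000)) := Real.exp_add _ _
        _ ≤ _ := by gcongr
    linarith
  have hw : |wcnt a y - y * s| ≤ s * (X * (4 * Real.exp (-(l / 20000)))) := by
    have hE : 2 * (X * Real.exp (-(l / 8000))) ≤ s * (2 * (X * Real.exp (-(l / 20000)))) := by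
      have h3 : Real.exp (-(l / 8000)) ≤ Real.exp (-(l / 1000000)) * Real.exp (-(l / 20000)) := by
        rw [← Real.exp_add]
        apply Real.exp_le_exp.2
        linarith
      calc 2 * (X * Real.exp (-(l / 8000))) ≤ 2 * (X * (Real.exp (-(l / 1000000)) * Real.exp (-(l / 20000)))) := by gcongr
        _ ≤ 2 * (X * (s * Real.exp (-(l / 20000)))) := by gcongr
        _ = _ := by ring
    have u1 := (abs_le.1 (hg j' hj'M)).2
    have u2 := wcnt_mono a y _ hjup
    have v1 := (abs_le.1 (hg j hjM)).1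
    have v2 := wcnt_mono a _ y hjlow
    have u3 : ((X * j' / M : ℕ) : ℝ) * s ≤ ((y : ℝ) + 2 * (X * Real.exp (-(l / 20000)))) * s := by
      apply mul_le_mul_of_nonneg_right _ hs0.le
      linarith
    have v3 : ((y : ℝ) - 2 * (X * Real.exp (-(l / 20000)))) * s ≤ ((X * j / M : ℕ) : ℝ) * s := by
      apply mul_le_mul_of_nonneg_right _ hs0.le
      linarith
    rw [abs_le]
    constructor <;> linarith
  have hE1 : Real.exp (-(l / 2)) ≤ 1 / 2 := by
    have := expc 2 (l / 2) 0 (by linarith)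
    rw [neg_zero, Real.exp_zero] at this
    linarith
  have hsS : s ≤ 2 * S := by
    have h3 := (abs_le.1 hSs).1
    have h4 : s * Real.exp (-(l / 2)) ≤ s * (1 / 2) := by gcongr
    linarith
  have hS0 : 0 < S := by linarith
  constructor
  · have h3 : |wcnt a y - S * y| ≤ s * (X * (4 * Real.exp (-(l / 20000)))) + X * (s * Real.exp (-(l / 2))) := by
      have e : wcnt a y - S * y = (wcnt a y - y * s) + y * (s - S) := by ring
      rw [e]
      refine (abs_add_le _ _).trans (add_le_add hw ?_)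
      rw [abs_mul, abs_of_nonneg (by positivity : (0 : ℝ) ≤ y), abs_sub_comm]
      have : (y : ℝ) ≤ X := by exact_mod_cast hy
      gcongr
    refine h3.trans ?_
    have h4 : 4 * Real.exp (-(l / 20000)) + Real.exp (-(l / 2)) ≤ (1 / 2) * Real.exp (-(l / 40000)) := by
      have h5 : Real.exp (-(l / 2)) ≤ Real.exp (-(l / 20000)) := by
        apply Real.exp_le_exp.2; linarith
      have h6 := expc 10 (l / 20000) (l / 40000) (by linarith)
      linarith
    calc s * (X * (4 * Real.exp (-(l / 20000)))) + X * (s * Real.exp (-(l / 2))) =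
        s * (X * (4 * Real.exp (-(l / 20000)) + Real.exp (-(l / 2)))) := by ring
      _ ≤ (2 * S) * (X * ((1 / 2) * Real.exp (-(l / 40000)))) := by gcongr
      _ = _ := by ring
  · have h3 := expc 2 (l / 500000) (l / 1000000) (by linarith)
    linarith

end

end Run7.h402.PW
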