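import Mathlib
import Pool.Agent.Run7.h402.PW.W8

/-!
# Almost all constellations at good scales
-/

set_option autoImplicit false

open Finset
open Filter (Tendsto atTop)
open scoped Topology Classical

namespace Run7.h402.PW

open Run7.h402.PT
open Pool.Agent.H373R2.T7
open Pool.Agent.N475.SP (dom)

noncomputable section

theorem count_of : ∃ l0 : ℝ, ∀ l : ℝ, l0 ≤ l → ∀ X : ℕ, Real.exp (l ^ 23) ≤ X → Real.log X ≤ l ^ 41 → ∀ K : ℕ, 1 ≤ K →
    (K : ℝ) ≤ l ^ (24 / 25 : ℝ) → ∀ a : Fin K → ℕ, (∀ i, a i ≤ X) → ∀ y : ℕ, y ≤ X → ∀ S : ℝ,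
    |wcnt a y - S * y| ≤ S * (X * Real.exp (-(l / 40000))) → Real.exp (-(l / 500000)) ≤ S →
      |(cnt a y : ℝ) * Real.log X ^ K - S * y| ≤ S * (y * (3 * l ^ 2 / Real.log X) + X * Real.exp (-(l / 100000))) := by
  obtain ⟨l1, h1⟩ := grow2 1 (1 / 1000000) le_rfl (by norm_num)
  refine ⟨max l1 100000000, fun l hl X hX hlX K hK hKl a haX y hy S hw hSlow => ?_⟩
  have hl1 : l1 ≤ l := (le_max_left _ _).trans hl
  have hl8 : 100000000 ≤ l := (le_max_right _ _).trans hl
  have hl0 : 0 < l := by linarith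
  have hlone : 1 ≤ l := by linarith
  have hX0 : (0 : ℝ) < X := (Real.exp_pos _).trans_le hX
  have hXn : 1 ≤ X := by exact_mod_cast hX0
  obtain ⟨g1, hKl'⟩ := h1 l hl1 K hKl
  rw [one_mul] at g1
  set L : ℝ := Real.log X with hL
  have hLlow : l ^ 23 ≤ L := by
    rw [hL, Real.le_log_iff_exp_le hX0]; exact hX
  have hl23 : l ≤ l ^ 23 := le_self_pow₀ hlone (by norm_num)
  have hlL : l ≤ L := hl23.trans hLlow
  have hL0 : 0 < L := by linarith
  have hK0 : (0 : ℝ) ≤ K := by positivity
  have hS0 : 0 < S := (Real.exp_pos _).trans_le hSlow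
  obtain ⟨u1, u2⟩ := unweight a X hXn haX l hl0.le hlL y hy
  set c : ℝ := (cnt a y : ℝ) with hc
  have hc0 : 0 ≤ c := by positivity
  set P : ℝ := wcnt a y with hP
  have hP0 : 0 ≤ P := sum_nonneg fun n _ => prod_nonneg fun i _ => Fp_nonneg _
  -- the ratio of the powers
  set x : ℝ := K * l / L with hx
  have hx0 : 0 ≤ x := by positivity
  have hxl : x ≤ l ^ 2 / L := by
    rw [hx]
    gcongr
    nlinarith
  have hl2L : 2 * l ^ 2 ≤ L := by
    have : l ^ 3 ≤ l ^ 23 := pow_le_pow_right₀ hlone (by norm_num)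
    nlinarith
  have hxh : x ≤ 1 / 2 := by
    refine hxl.trans ?_
    rw [div_le_iff₀ hL0]
    linarith
  have hup : L ^ K ≤ (1 + 2 * x) * (L - l) ^ K := by
    have h3 : (L - l) ^ K = L ^ K * (1 - l / L) ^ K := by
      rw [← mul_pow]
      congr 1
      field_simp
    have h4 : 1 - x ≤ (1 - l / L) ^ K := by
      have h5 : -2 ≤ -(l / L) := by
        have : l / L ≤ 1 := by rw [div_le_one hL0]; exact hlL
        linarith
      have h6 := one_add_mul_le_pow h5 K
      have e1 : 1 + (K : ℝ) * -(l / L) = 1 - x := by rw [hx]; ring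
      have e2 : 1 + -(l / L) = 1 - l / L := by ring
      rwa [e1, e2] at h6
    rw [h3]
    have h5 : 1 ≤ (1 + 2 * x) * (1 - x) := by nlinarith
    have hLK : 0 ≤ L ^ K := by positivity
    calc L ^ K = L ^ K * 1 := (mul_one _).symm
      _ ≤ L ^ K * ((1 + 2 * x) * (1 - x)) := by gcongr
      _ ≤ L ^ K * ((1 + 2 * x) * (1 - l / L) ^ K) := by gcongr
      _ = _ := by ring
  have hlow : (1 - K / L) * (L + 1) ^ K ≤ L ^ K := by
    have h3 : L ^ K = (L + 1) ^ K * (1 - 1 / (L + 1)) ^ K := by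
      rw [← mul_pow]
      congr 1
      have : L + 1 ≠ 0 := by linarith
      field_simp
      ring
    have h4 : 1 - (K : ℝ) / L ≤ (1 - 1 / (L + 1)) ^ K := by
      have h5 : -2 ≤ -(1 / (L + 1)) := by
        have : 1 / (L + 1) ≤ 1 := by rw [div_le_one (by linarith)]; linarith
        linarith
      have h6 := one_add_mul_le_pow h5 K
      have e1 : 1 + (K : ℝ) * -(1 / (L + 1)) = 1 - K / (L + 1) := by ring
      have e2 : 1 + -(1 / (L + 1)) = 1 - 1 / (L + 1) := by ring
      rw [e1, e2] at h6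
      have h7 : (K : ℝ) / (L + 1) ≤ K / L := by gcongr; linarith
      linarith
    rw [h3, mul_comm]
    apply mul_le_mul_of_nonneg_left h4
    positivity
  set e1 : ℝ := Real.exp (-(l / 40000)) with he1
  have he10 : 0 < e1 := Real.exp_pos _
  have hw1 := (abs_le.1 hw).1
  have hw2 := (abs_le.1 hw).2
  have hLK : L ^ K * (X * Real.exp (-l)) ≤ S * (X * e1) := by
    have h3 : L ^ K ≤ Real.exp (1 / 1000000 * l) := by
      refine le_trans ?_ g1
      have : l ^ 41 ≤ l ^ 50 := pow_le_pow_right₀ hlone (by norm_num)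
      gcongr
      linarith
    have h4 : Real.exp (1 / 1000000 * l) * Real.exp (-l) ≤ Real.exp (-(l / 500000)) * e1 := by
      rw [he1, ← Real.exp_add, ← Real.exp_add]
      apply Real.exp_le_exp.2
      linarith
    calc L ^ K * (X * Real.exp (-l)) ≤ Real.exp (1 / 1000000 * l) * (X * Real.exp (-l)) := by gcongr
      _ = X * (Real.exp (1 / 1000000 * l) * Real.exp (-l)) := by ring
      _ ≤ X * (Real.exp (-(l / 500000)) * e1) := by gcongr
      _ ≤ X * (S * e1) := by gcongr
      _ = _ := by ring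
  have hy0 : (0 : ℝ) ≤ y := by positivity
  have hfin : 4 * e1 ≤ Real.exp (-(l / 100000)) := expc 4 _ _ (by linarith)
  have hKL : (K : ℝ) / L ≤ 3 * l ^ 2 / L := by
    gcongr
    nlinarith
  have hx3 : 2 * x ≤ 3 * l ^ 2 / L := by
    have : 2 * (l ^ 2 / L) ≤ 3 * l ^ 2 / L := by
      rw [← mul_div_assoc]
      gcongr
      norm_num
    linarith
  have hSX : 0 ≤ S * (X * e1) := by positivity
  rw [abs_le]
  constructor
  · -- the lower bound
    have h3 : (1 - K / L) * P ≤ c * L ^ K := by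
      have h4 : 0 ≤ 1 - (K : ℝ) / L := by
        have : (K : ℝ) / L ≤ 1 := by
          rw [div_le_one hL0]; linarith
        linarith
      calc (1 - K / L) * P ≤ (1 - K / L) * ((L + 1) ^ K * c) := by gcongr
        _ = ((1 - K / L) * (L + 1) ^ K) * c := by ring
        _ ≤ L ^ K * c := by gcongr
        _ = _ := mul_comm _ _
    have h4 : S * y * (K / L) ≤ S * (y * (3 * l ^ 2 / L)) := by
      rw [mul_assoc]
      gcongr
    have h5 : 0 ≤ (K : ℝ) / L := by positivity
    have h6 : S * (X * e1) ≤ S * (X * Real.exp (-(l / 100000))) := by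
      gcongr
      linarith
    have h7 : (1 - K / L) * (S * y - S * (X * e1)) ≤ (1 - K / L) * P := by
      apply mul_le_mul_of_nonneg_left _ _
      · linarith
      · have : (K : ℝ) / L ≤ 1 := by
          rw [div_le_one hL0]; linarith
        linarith
    have h8 : (1 - K / L) * (S * y - S * (X * e1)) = S * y - S * y * (K / L) - S * (X * e1) + K / L * (S * (X * e1)) := by ring
    have h9 : 0 ≤ K / L * (S * (X * e1)) := by positivity
    have h10 : S * (y * (3 * l ^ 2 / L) + X * Real.exp (-(l / 100000))) = S * (y * (3 * l ^ 2 / L)) + S * (X * Real.exp (-(l / 100000))) := by ring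
    rw [h10]
    linarith
  · -- the upper bound
    have h3 : c * L ^ K ≤ (1 + 2 * x) * (P + L ^ K * (X * Real.exp (-l))) := by
      calc c * L ^ K ≤ c * ((1 + 2 * x) * (L - l) ^ K) := by gcongr
        _ = (1 + 2 * x) * ((L - l) ^ K * c) := by ring
        _ ≤ _ := by gcongr
    have h4 : (1 + 2 * x) * (P + L ^ K * (X * Real.exp (-l))) ≤ (1 + 2 * x) * (S * y + 2 * (S * (X * e1))) := by
      apply mul_le_mul_of_nonneg_left _ (by positivity)
      linarith
    have h5 : (1 + 2 * x) * (S * y + 2 * (S * (X * e1))) = S * y + S * y * (2 * x) + (1 + 2 * x) * (2 * (S * (X * e1))) := by ring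
    have h6 : S * y * (2 * x) ≤ S * (y * (3 * l ^ 2 / L)) := by
      rw [mul_assoc]
      gcongr
    have h7 : (1 + 2 * x) * (2 * (S * (X * e1))) ≤ 2 * (2 * (S * (X * e1))) := by
      apply mul_le_mul_of_nonneg_right _ (by positivity)
      linarith
    have h8 : 2 * (2 * (S * (X * e1))) ≤ S * (X * Real.exp (-(l / 100000))) := by
      calc 2 * (2 * (S * (X * e1))) = S * (X * (4 * e1)) := by ring
        _ ≤ _ := by gcongr
    have h10 : S * (y * (3 * l ^ 2 / L) + X * Real.exp (-(l / 100000))) = S * (y * (3 * l ^ 2 / L)) + S * (X * Real.exp (-(l / 100000))) := by ring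
    rw [h10]
    linarith

/-- what is shown for almost all tuples -/
def Fine (l : ℝ) (X : ℕ) {K : ℕ} (a : Fin K → ℕ) : Prop :=
  Function.Injective a ∧ (Adm a → ∀ S : ℝ, Tendsto (Sz a) atTop (𝓝 S) → ∀ y : ℕ, y ≤ X →
    |(cnt a y : ℝ) * Real.log X ^ K - S * y| ≤ S * (y * (3 * l ^ 2 / Real.log X) + X * Real.exp (-(l / 100000))))

/-- one of the values is large -/
def BadJ {k : ℕ} (E : (Fin k → ℕ) → ℕ → ℝ) (M : ℕ) (c : ℝ) (m : Fin k → ℕ) : Prop := ∃ j ∈ range (M + 1), c < E m j

/-- almost all constellations -/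
theorem almost_const : ∃ l0 : ℝ, ∀ l : ℝ, l0 ≤ l → GoodScale l → ∀ X : ℕ, Real.exp (l ^ 23) ≤ X → ((4 * X : ℕ) : ℝ) ≤ Real.exp (l ^ 41) →
    ∀ k : ℕ, ((k + 1 : ℕ) : ℝ) ≤ l ^ (24 / 25 : ℝ) →
      (((Fintype.piFinset (fun _ : Fin k => Icc 1 X)).filter (fun m => ¬ Fine l X (cz m))).card : ℝ) ≤ Real.exp (-(l / 20000)) * (X : ℝ) ^ k := by
  obtain ⟨l1, h1⟩ := const_avg
  obtain ⟨l2, h2⟩ := weighted_of
  obtain ⟨l3, h3⟩ := count_of
  obtain ⟨l4, h4⟩ := grow2 1 1 le_rfl one_pos
  refine ⟨max (max l1 l2) (max (max l3 l4) 100000000), fun l hl hgood X hX1 hX2 k hkl => ?_⟩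
  have hl1 : l1 ≤ l := ((le_max_left _ _).trans (le_max_left _ _)).trans hl
  have hl2 : l2 ≤ l := ((le_max_right _ _).trans (le_max_left _ _)).trans hl
  have hl3 : l3 ≤ l := (((le_max_left _ _).trans (le_max_left _ _)).trans (le_max_right _ _)).trans hl
  have hl4 : l4 ≤ l := (((le_max_right _ _).trans (le_max_left _ _)).trans (le_max_right _ _)).trans hl
  have hl8 : 100000000 ≤ l := ((le_max_right _ _).trans (le_max_right _ _)).trans hl
  have hl0 : 0 < l := by linarith
  have hlone : 1 ≤ l := by linarith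
  have hX0 : (0 : ℝ) < X := (Real.exp_pos _).trans_le hX1
  have hXn : 1 ≤ X := by exact_mod_cast hX0
  have hlogX : Real.log X ≤ l ^ 41 := by
    rw [Real.log_le_iff_le_exp hX0]
    refine le_trans ?_ hX2
    push_cast
    linarith
  obtain ⟨_, hKl'⟩ := h4 l hl4 (k + 1) hkl
  set M : ℕ := ⌈Real.exp (l / 20000)⌉₊ with hM
  have hM1 : Real.exp (l / 20000) ≤ M := Nat.le_ceil _
  have hM2 : (M : ℝ) + 1 ≤ 3 * Real.exp (l / 20000) := by
    have h5 := (Nat.ceil_lt_add_one (Real.exp_pos (l / 20000)).le).le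
    have h6 : 1 ≤ Real.exp (l / 20000) := Real.one_le_exp (by positivity)
    rw [← hM] at h5
    linarith
  set Om := Fintype.piFinset (fun _ : Fin k => Icc 1 X) with hOm
  set E : (Fin k → ℕ) → ℕ → ℝ := fun m j =>
    |∑ n ∈ Icc 1 (X * j / M), (∏ i, Fp (n + cz m i) - ∏ i, lamz (zl l) (n + cz m i))| with hE
  have hE0 : ∀ m j, 0 ≤ E m j := fun _ _ => abs_nonneg _
  set e8 : ℝ := Real.exp (-(l / 8000)) with he8
  set B1 := Om.filter (fun m => BadJ E M (X * e8) m) with hB1
  set B2 := Om.filter (fun m => ¬ Function.Injective m) with hB2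
  -- the first exceptional set
  have hM0 : (0 : ℝ) < M := (Real.exp_pos _).trans_le hM1
  have hMn : 0 < M := by exact_mod_cast hM0
  have htot : ∑ m ∈ Om, ∑ j ∈ range (M + 1), E m j ≤ ((M : ℝ) + 1) * (X * Real.exp (-(l / 4000)) * (X : ℝ) ^ k) := by
    rw [sum_comm]
    have h5 : ∀ j ∈ range (M + 1), ∑ m ∈ Om, E m j ≤ X * Real.exp (-(l / 4000)) * (X : ℝ) ^ k := by
      intro j hj
      apply h1 l hl1 hgood X hX1 hX2 k hkl
      apply Nat.div_le_of_le_mul
      rw [mul_comm M X]
      apply Nat.mul_le_mul_left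
      rw [mem_range] at hj
      omega
    refine (sum_le_sum h5).trans (le_of_eq ?_)
    rw [sum_const, card_range, nsmul_eq_mul]
    push_cast
    ring
  have hB1c : (B1.card : ℝ) ≤ Real.exp (-(l / 20000)) / 2 * (X : ℝ) ^ k := by
    have h5 : (B1.card : ℝ) * (X * e8) ≤ ((M : ℝ) + 1) * (X * Real.exp (-(l / 4000)) * (X : ℝ) ^ k) := by
      refine le_trans ?_ htot
      calc (B1.card : ℝ) * (X * e8) = ∑ m ∈ B1, X * e8 := by rw [sum_const, nsmul_eq_mul]
        _ ≤ ∑ m ∈ B1, ∑ j ∈ range (M + 1), E m j := by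
            apply sum_le_sum
            intro m hm
            rw [hB1, mem_filter] at hm
            obtain ⟨_, j, hj, hjE⟩ := hm
            exact hjE.le.trans (single_le_sum (f := fun j => E m j) (fun j _ => hE0 m j) hj)
        _ ≤ _ := by
            apply sum_le_sum_of_subset_of_nonneg (filter_subset _ _)
            intro m _ _
            exact sum_nonneg fun j _ => hE0 m j
    have h6 : Real.exp (-(l / 4000)) = e8 * e8 := by
      rw [he8, ← Real.exp_add]; congr 1; ring
    have he80 : 0 < e8 := Real.exp_pos _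
    have h7 : (B1.card : ℝ) * (X * e8) ≤ (((M : ℝ) + 1) * e8 * (X : ℝ) ^ k) * (X * e8) := by
      refine h5.trans (le_of_eq ?_)
      rw [h6]
      ring
    have h8 := le_of_mul_le_mul_right h7 (by positivity)
    refine h8.trans ?_
    apply mul_le_mul_of_nonneg_right _ (by positivity)
    calc ((M : ℝ) + 1) * e8 ≤ 3 * Real.exp (l / 20000) * e8 := by gcongr
      _ = 3 * Real.exp (-(l / 8000 - l / 20000)) := by
          rw [mul_assoc, he8, ← Real.exp_add]; congr 2; ring
      _ ≤ Real.exp (-(l / 20000)) / 2 := by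
          have := expc 6 (l / 8000 - l / 20000) (l / 20000) (by linarith)
          linarith
  -- the second exceptional set
  have hB2c : (B2.card : ℝ) ≤ Real.exp (-(l / 20000)) / 2 * (X : ℝ) ^ k := by
    have h5 := card_noninj k X hXn
    have h6 : (B2.card : ℝ) * X ≤ (Real.exp (-(l / 20000)) / 2 * (X : ℝ) ^ k) * X := by
      refine h5.trans ?_
      have h7 : (k : ℝ) ^ 2 ≤ Real.exp (-(l / 20000)) / 2 * X := by
        have h8 : (k : ℝ) ≤ l := by
          push_cast at hKl'
          linarith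
        have h9 : 2 * l ^ 2 ≤ Real.exp (l ^ 23 - l / 20000) := by
          have h10 : l ≤ l ^ 23 - l / 20000 := by
            have h11 : l ^ 2 ≤ l ^ 23 := pow_le_pow_right₀ hlone (by norm_num)
            nlinarith
          have h12 := Real.add_one_le_exp (l ^ 23 - l / 20000)
          have h13 : 2 * l ^ 2 ≤ l ^ 23 - l / 20000 := by
            have h11 : l ^ 3 ≤ l ^ 23 := pow_le_pow_right₀ hlone (by norm_num)
            nlinarith
          linarith
        have h10 : Real.exp (l ^ 23 - l / 20000) ≤ Real.exp (-(l / 20000)) * X := by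
          rw [sub_eq_add_neg, Real.exp_add, mul_comm]
          gcongr
        have h11 : (k : ℝ) ^ 2 ≤ l ^ 2 := by gcongr
        linarith
      calc (k : ℝ) ^ 2 * (X : ℝ) ^ k ≤ (Real.exp (-(l / 20000)) / 2 * X) * (X : ℝ) ^ k := by gcongr
        _ = _ := by ring
    exact le_of_mul_le_mul_right h6 hX0
  have hsub : Om.filter (fun m => ¬ Fine l X (cz m)) ⊆ B1 ∪ B2 := by
    intro m hm
    rw [mem_filter] at hm
    obtain ⟨hmO, hmF⟩ := hm
    rw [mem_union]
    by_contra hcon
    push Not at hcon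
    obtain ⟨hn1, hn2⟩ := hcon
    apply hmF
    have hm1 : ∀ i, 1 ≤ m i ∧ m i ≤ X := fun i => mem_Icc.1 (Fintype.mem_piFinset.1 hmO i)
    have hinjm : Function.Injective m := by
      by_contra hni
      exact hn2 (mem_filter.2 ⟨hmO, hni⟩)
    have hinj : Function.Injective (cz m) := by
      unfold cz
      rw [Fin.cons_injective_iff]
      refine ⟨?_, hinjm⟩
      rintro ⟨i, hi⟩
      have := (hm1 i).1
      omega
    have hczX : ∀ i, cz m i ≤ X := by
      intro i
      refine Fin.cases ?_ (fun j => ?_) i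
      · exact Nat.zero_le _
      · exact (hm1 j).2
    have hgrid : ∀ j : ℕ, j ≤ M → |∑ n ∈ Icc 1 (X * j / M), (∏ i, Fp (n + cz m i) - ∏ i, lamz (zl l) (n + cz m i))| ≤ X * Real.exp (-(l / 8000)) := by
      intro j hj
      by_contra hc
      push Not at hc
      apply hn1
      rw [hB1, mem_filter]
      exact ⟨hmO, j, mem_range.2 (by omega), hc⟩
    refine ⟨hinj, fun hadm S hS y hy => ?_⟩
    obtain ⟨w1, w2⟩ := h2 l hl2 X hX1 hlogX (k + 1) (by omega) hkl M hM1 (cz m) hczX hinj hgrid hadm S hS y hy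
    exact h3 l hl3 X hX1 hlogX (k + 1) (by omega) hkl (cz m) hczX y hy S w1 w2
  have h5 : ((Om.filter (fun m => ¬ Fine l X (cz m))).card : ℝ) ≤ B1.card + B2.card := by
    exact_mod_cast (card_le_card hsub).trans (card_union_le _ _)
  linarith

end

end Run7.h402.PW
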